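import Pool.Agent.MP_9e511b_an.Mg.Main

attribute [-instance] AddQuantale.instAddLeftMono IdemSemiring.toCanonicallyOrderedAdd
  ProperSMul.toContinuousSMul Valued.toUniformSpace NonUnitalNonAssocRing.toAddCommGroup
  CompactSpace.sigmaCompact AddQuantale.instAddRightMono littleWedderburn NumberField.to_charZero
  AlexandrovDiscrete.toLocallyCompactSpace IsScalarTower.complexToReal AddGroupWithOne.toAddGroup
  LieAdmissibleAlgebra.toSMulCommClass NonarchimedeanAddGroup.toIsTopologicalAddGroup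
  GrpTypeEquivalenceGrp.grpGroup Quantale.instMulRightMono instCoeOTCOfCoeOut
  NonUnitalNormedRing.toNonUnitalSeminormedRing Topology.IsScott.instClosedIicTopologyOfUnivSet
  Ring.toAddCommGroup LinearOrderedCommMonoidWithZero.toPosMulStrictMono IdemSemiring.toMulLeftMono
  Quantale.instMulLeftMono CategoryTheory.CountableCategory.countableObj RightPreLieAlgebra.toModule
  NonUnitalNonAssocSemiring.toDistrib LeftPreLieAlgebra.toModule instCoeHTCTOfCoeTailOfCoeHTC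
  NonUnitalNonAssocSemiring.toMulZeroClass instCoeHTCOfCoeHeadOfCoeOTC
  NonUnitalNormedCommRing.toNonUnitalSeminormedCommRing NonUnitalNonAssocSemiring.toAddCommMonoid
  CStarAlgebra.instOrderClosedTopology Group.IsPerfect.subsingleton_of_isMulCommutative
  Algebra.toSMul CommMonTypeEquivalenceCommMon.commMonCommMonoid IdemSemiring.toSemiring
  RKHS.instFunLike LieRing.toAddCommGroup IsTopologicalTorsor.toContinuousSMul NormedRing.toRing
  LieAdmissibleAlgebra.toIsScalarTower CommRing.toRing continuousSub_of_discreteTopology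
  IsOrderedCancelMonoid.toIsOrderedMonoid IsTopologicalSemiring.toIsSemitopologicalSemiring
  instCoeTCOfCoe TotallySeparatedSpace.t2Space
  TopologicalSpace.instSecondCountableTopologyOfLindelofSpaceOfPseudoMetrizableSpace
  NonUnitalSeminormedRing.toPseudoMetricSpace RightPreLieAlgebra.toSMulCommClass
  RightPreLieAlgebra.toIsScalarTower LeftPreLieAlgebra.toSMulCommClass
  instSeparatelyContinuousMulOfContinuousMul LeftPreLieAlgebra.toIsScalarTower
  NormedRing.toSeminormedRing IsTopologicalSemiring.toContinuousAdd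
  PolishSpace.toSecondCountableTopology Field.toDivisionRing
  LinearOrderedCommMonoidWithZero.toIsBotZeroClass CommCStarAlgebra.toNormedCommRing
  Unique.instSubsingleton CanonicallyOrderedAdd.toMulLeftMono MulSemiringAction.toDistribMulAction
  NonUnitalNormedCommRing.toNonUnitalCommRing NonAssocSemiring.toAddCommMonoidWithOne
  Fintype.decidableForallFintype EuclideanDomain.toCommRing SeminormedCommRing.toCommRing
  SeminormedCommGroup.toPseudoMetricSpace UpgradedStandardBorel.toTopologicalSpace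
  MeasureTheory.instSFiniteOfCountable Prod.instMul instCoeTOfCoeDep
  NonAssocRing.toAddCommGroupWithOne LinearOrderedCommMonoidWithZero.toIsOrderedMonoid
  Field.toCommRing instSMulZeroClass instIsBotOneClass SeminormedRing.toNonUnitalSeminormedRing
  IdemSemiring.toMulRightMono DiscreteMeasurableSpace.toMeasurableMul
  AddCommGroupWithOne.toAddCommGroup

section

open MeasureTheory Metric Set Module Filter
open scoped ENNReal

namespace Pool.Agent.MP_9e511b_an.H18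

theorem en_pow {F : Type*} [NormedAddCommGroup F] (a : F) {p : ℝ} (hp : 0 ≤ p) :
    ‖a‖ₑ ^ p = ENNReal.ofReal (‖a‖ ^ p) := by
  rw [← ofReal_norm, ENNReal.ofReal_rpow_of_nonneg (norm_nonneg _) hp]

/-- Hoelder's inequality raised to the power `p`. -/
theorem holder {X : Type*} [MeasurableSpace X] (ν : Measure X) {f g : X → ℝ≥0∞}
    (hf : AEMeasurable f ν) (hg : AEMeasurable g ν) {p : ℝ} (hp : 1 < p) :
    (∫⁻ x, f x * g x ∂ν) ^ p ≤ (∫⁻ x, f x ^ p ∂ν) * (∫⁻ x, g x ^ (p / (p - 1)) ∂ν) ^ (p - 1) := by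
  have h0 : 0 < p := by linarith
  have h1 : 0 < p - 1 := by linarith
  have h := ENNReal.lintegral_mul_le_Lp_mul_Lq ν (Real.HolderConjugate.conjExponent hp) hf hg
  refine (ENNReal.rpow_le_rpow h h0.le).trans (le_of_eq ?_)
  rw [ENNReal.mul_rpow_of_nonneg _ _ h0.le, ← ENNReal.rpow_mul, ← ENNReal.rpow_mul,
    Real.conjExponent, one_div_mul_cancel h0.ne', ENNReal.rpow_one]
  congr 2
  field_simp

theorem jensen {X : Type*} [MeasurableSpace X] (ν : Measure X) {f : X → ℝ≥0∞}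
    (hf : AEMeasurable f ν) {p : ℝ} (hp : 1 < p) :
    (∫⁻ x, f x ∂ν) ^ p ≤ (∫⁻ x, f x ^ p ∂ν) * ν univ ^ (p - 1) := by
  simpa only [mul_one, ENNReal.one_rpow, lintegral_const, one_mul] using holder ν hf (g := fun _ => 1) aemeasurable_const hp

theorem lint_pow {a q : ℝ} (ha : 0 < a) (ha1 : a ≤ 1) (hq : 0 < q) :
    ∫⁻ t in Ioc a 1, ENNReal.ofReal (t ^ (-q - 1)) = ENNReal.ofReal ((a ^ (-q) - 1) / q) := by
  have h0 : (0 : ℝ) ∉ uIcc a 1 := by
    rw [uIcc_of_le ha1]; exact fun h => absurd h.1 (not_le.2 ha)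
  have hi : IntegrableOn (fun t : ℝ => t ^ (-q - 1)) (Ioc a 1) :=
    (intervalIntegral.intervalIntegrable_rpow (μ := volume) (Or.inr h0)).1
  rw [← ofReal_integral_eq_lintegral_ofReal hi]
  · rw [← intervalIntegral.integral_of_le ha1, integral_rpow (Or.inr ⟨by linarith, h0⟩)]
    congr 1
    rw [Real.one_rpow, show -q - 1 + 1 = -q by ring]
    field_simp
    ring
  · filter_upwards [ae_restrict_mem measurableSet_Ioc] with t ht
    exact Real.rpow_nonneg (ha.trans ht.1).le _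

variable {E : Type*} [NormedAddCommGroup E] [NormedSpace ℝ E] [FiniteDimensional ℝ E]
  [MeasurableSpace E] [BorelSpace E] (μ : Measure E) [μ.IsAddHaarMeasure]

omit [NormedSpace ℝ E] [FiniteDimensional ℝ E] in
theorem ball_shift (F : E → ℝ≥0∞) (x : E) (R : ℝ) :
    ∫⁻ y in ball x R, F y ∂μ = ∫⁻ z in ball 0 R, F (x + z) ∂μ := by
  rw [← (measurePreserving_add_left μ x).setLIntegral_comp_preimage_emb
    (measurableEmbedding_addLeft x)]
  simp

/-- Scaling and Fubini along the rays of a cone. -/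
theorem ray_swap [Nontrivial E] {O : Set E} (hO : MeasurableSet O)
    (hc : ∀ t : ℝ, 0 < t → ∀ x, t • x ∈ O ↔ x ∈ O) {R q : ℝ} (hR : 0 < R) (hq : 0 < q)
    {G : E → ℝ≥0∞} (hG : Measurable G) :
    ∫⁻ x in ball 0 R ∩ O, (∫⁻ t in Ioc (0 : ℝ) 1,
        ENNReal.ofReal (t ^ ((finrank ℝ E : ℝ) - 1 - q)) * G (t • x)) ∂μ =
      ∫⁻ z in ball 0 R ∩ O, G z * ENNReal.ofReal (((‖z‖ / R) ^ (-q) - 1) / q) ∂μ := by
  have hB : MeasurableSet (ball (0 : E) R ∩ O) := measurableSet_ball.inter hO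
  set S : Set (ℝ × E) := {w | ‖w.2‖ < w.1 * R} ∩ Prod.snd ⁻¹' O with hS
  have hSm : MeasurableSet S :=
    (isOpen_lt (by fun_prop) (by fun_prop)).measurableSet.inter (measurable_snd hO)
  have hH : Measurable (S.indicator fun w => G w.2) := (hG.comp measurable_snd).indicator hSm
  rw [lintegral_lintegral_swap (by fun_prop)]
  have e1 : ∀ t ∈ Ioc (0 : ℝ) 1, ∫⁻ x in ball 0 R ∩ O,
      ENNReal.ofReal (t ^ ((finrank ℝ E : ℝ) - 1 - q)) * G (t • x) ∂μ =
      ∫⁻ z, ENNReal.ofReal (t ^ (-q - 1)) * S.indicator (fun w => G w.2) (t, z) ∂μ := by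
    intro t ht
    have hm : Measurable fun z => S.indicator (fun w => G w.2) (t, z) := by fun_prop
    have := lintegral_homothety μ _ hm 0 ht.1
    rw [lintegral_const_mul _ (by fun_prop), lintegral_const_mul _ hm,
      ← lintegral_indicator hB]
    have e : ∀ x, (ball 0 R ∩ O).indicator (fun x => G (t • x)) x =
        S.indicator (fun w => G w.2) (t, 0 + t • (x - 0)) := by
      intro x
      have : (t, t • x) ∈ S ↔ x ∈ ball 0 R ∩ O := by
        simp only [hS, mem_inter_iff, mem_ofPred_eq, norm_smul, Real.norm_eq_abs, abs_of_pos ht.1, ht.1, mul_lt_mul_iff_right₀, mem_preimage, hc t ht.1, mem_ball, dist_zero_right]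
      rw [zero_add, sub_zero]
      by_cases hx : x ∈ ball 0 R ∩ O
      · rw [indicator_of_mem hx, indicator_of_mem (this.2 hx)]
      · rw [indicator_of_notMem hx, indicator_of_notMem fun h => hx (this.1 h)]
    simp_rw [e]
    rw [this, ← mul_assoc, ← ENNReal.ofReal_mul (Real.rpow_nonneg ht.1.le _),
      ← Real.rpow_natCast, ← Real.rpow_neg ht.1.le, ← Real.rpow_add ht.1]
    congr 3
    ring
  rw [setLIntegral_congr_fun measurableSet_Ioc e1, lintegral_lintegral_swap (by fun_prop),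
    ← lintegral_indicator hB]
  refine lintegral_congr_ae ?_
  filter_upwards [compl_mem_ae_iff.2 (measure_singleton (0 : E))] with z hz
  have hz0 : 0 < ‖z‖ / R := div_pos (norm_pos_iff.2 hz) hR
  by_cases hx : z ∈ ball 0 R ∩ O
  · have h1 : ‖z‖ / R ≤ 1 := (div_le_one hR).2 (mem_ball_zero_iff.1 hx.1).le
    rw [indicator_of_mem hx, ← lint_pow hz0 h1 hq, ← lintegral_const_mul _ (by fun_prop),
      ← lintegral_indicator measurableSet_Ioc, ← lintegral_indicator measurableSet_Ioc]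
    refine lintegral_congr fun t => ?_
    by_cases ht : t ∈ Ioc (‖z‖ / R) 1
    · rw [indicator_of_mem ht, indicator_of_mem (show t ∈ Ioc (0 : ℝ) 1 from ⟨hz0.trans ht.1, ht.2⟩),
        indicator_of_mem (show (t, z) ∈ S from ⟨(div_lt_iff₀ hR).1 ht.1, hx.2⟩), mul_comm]
    · rw [indicator_of_notMem ht]
      refine indicator_apply_eq_zero.2 fun h => ?_
      rw [indicator_of_notMem fun h' => ht ⟨(div_lt_iff₀ hR).2 h'.1, h.2⟩, mul_zero]
  · rw [indicator_of_notMem hx]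
    refine (setLIntegral_congr_fun measurableSet_Ioc (g := fun _ => 0) fun t ht => ?_).trans
      lintegral_zero
    have : (t, z) ∉ S := fun h' => hx ⟨mem_ball_zero_iff.2 (lt_of_lt_of_le h'.1
      (mul_le_of_le_one_left hR.le ht.2)), h'.2⟩
    simp [indicator_of_notMem this]

omit [FiniteDimensional ℝ E] [MeasurableSpace E] [BorelSpace E] in
theorem ftc {f : E → ℝ} (hf : ContDiff ℝ 1 f) (z h : E) :
    ‖f (z + h) - f z‖ₑ ≤ ∫⁻ t in Ioc (0 : ℝ) 1, ‖fderiv ℝ f (z + t • h)‖ₑ * ‖h‖ₑ := by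
  have := abs_sub_le_lintegral hf z (z + h)
  simp only [add_sub_cancel_left] at this
  rw [Real.enorm_eq_ofReal_abs]
  refine this.trans (le_of_eq (lintegral_congr fun t => ?_))
  rw [ENNReal.ofReal_mul (norm_nonneg _), ofReal_norm, ofReal_norm]

omit [FiniteDimensional ℝ E] in
theorem meas_grad {f : E → ℝ} (hf : ContDiff ℝ 1 f) : Measurable fun x => ‖fderiv ℝ f x‖ₑ :=
  (hf.continuous_fderiv one_ne_zero).enorm.measurable

/-- The `L^p` estimate on a ball for a function vanishing at the centre. -/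
theorem ray_p [Nontrivial E] {u : E → ℝ} (hu : ContDiff ℝ 1 u) {x : E} (h0 : u x = 0) {p R : ℝ}
    (hp1 : 1 < p) (hp : (finrank ℝ E : ℝ) < p) (hR : 0 < R) :
    ∫⁻ y in ball x R, ‖u y‖ₑ ^ p ∂μ ≤
      ENNReal.ofReal (((p - 1) / (p - finrank ℝ E)) ^ (p - 1) * (R ^ p / p)) *
        ∫⁻ y in ball x R, ‖fderiv ℝ u y‖ₑ ^ p ∂μ := by
  set d : ℝ := ((finrank ℝ E : ℕ) : ℝ) with hd
  have hp0 : 0 < p := by linarith
  have h1 : 0 < p - 1 := by linarith
  have h2 : 0 < p - d := by linarith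
  have hg := meas_grad hu
  set G : E → ℝ≥0∞ := fun z => ‖fderiv ℝ u (x + z)‖ₑ ^ p * ‖z‖ₑ ^ p with hG
  have hGm : Measurable G := ((hg.comp (by fun_prop)).pow_const _).mul (by fun_prop)
  have key := ray_swap μ (O := univ) MeasurableSet.univ (by simp) hR hp0 hGm
  rw [inter_univ] at key
  rw [ball_shift μ _ x, ball_shift μ _ x, ENNReal.ofReal_mul (by positivity), mul_assoc]
  have pt : ∀ z : E, ‖u (x + z)‖ₑ ^ p ≤ ENNReal.ofReal (((p - 1) / (p - d)) ^ (p - 1)) *
      ∫⁻ t in Ioc (0 : ℝ) 1, ENNReal.ofReal (t ^ (d - 1 - p)) * G (t • z) := by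
    intro z
    have a1 := ftc hu x z
    rw [h0, sub_zero] at a1
    have hm : Measurable fun t : ℝ => ‖fderiv ℝ u (x + t • z)‖ₑ := hg.comp (by fun_prop)
    have a2 := holder (volume.restrict (Ioc (0 : ℝ) 1)) (p := p)
      (f := fun t => ENNReal.ofReal (t ^ ((d - 1) / p)) * (‖fderiv ℝ u (x + t • z)‖ₑ * ‖z‖ₑ))
      (g := fun t => ENNReal.ofReal (t ^ (-((d - 1) / p)))) (by fun_prop) (by fun_prop) hp1
    have a3 : ∫⁻ t in Ioc (0 : ℝ) 1, ENNReal.ofReal (t ^ (-((d - 1) / p))) ^ (p / (p - 1)) =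
        ENNReal.ofReal ((p - 1) / (p - d)) := by
      rw [setLIntegral_congr_fun measurableSet_Ioc
        (g := fun t => ENNReal.ofReal (t ^ (-((d - 1) / (p - 1))))) fun t ht => ?_,
        lintegral_rpow_neg (by rw [div_lt_one h1]; linarith only [hp])]
      · rw [one_sub_div h1.ne', one_div_div]; congr 2; ring
      · rw [ENNReal.ofReal_rpow_of_nonneg (Real.rpow_nonneg ht.1.le _) (by positivity),
          ← Real.rpow_mul ht.1.le]
        congr 2; field_simp
    rw [a3, ENNReal.ofReal_rpow_of_nonneg (by positivity) h1.le, mul_comm] at a2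
    refine (ENNReal.rpow_le_rpow (a1.trans (le_of_eq ?_)) hp0.le).trans (a2.trans (le_of_eq ?_))
    · refine setLIntegral_congr_fun measurableSet_Ioc fun t ht => ?_
      rw [mul_right_comm (ENNReal.ofReal _), ← ENNReal.ofReal_mul (Real.rpow_nonneg ht.1.le _),
        ← Real.rpow_add ht.1]
      simp
    · congr 1
      refine setLIntegral_congr_fun measurableSet_Ioc fun t ht => ?_
      have e : ‖t • z‖ₑ ^ p = ENNReal.ofReal (t ^ p) * ‖z‖ₑ ^ p := by
        rw [enorm_smul, ENNReal.mul_rpow_of_nonneg _ _ hp0.le, Real.enorm_eq_ofReal ht.1.le,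
          ENNReal.ofReal_rpow_of_nonneg ht.1.le hp0.le]
      simp only [hG]
      rw [e, ENNReal.mul_rpow_of_nonneg _ _ hp0.le, ENNReal.mul_rpow_of_nonneg _ _ hp0.le,
        ENNReal.ofReal_rpow_of_nonneg (Real.rpow_nonneg ht.1.le _) hp0.le, ← Real.rpow_mul ht.1.le,
        div_mul_cancel₀ _ hp0.ne', show d - 1 = d - 1 - p + p by ring, Real.rpow_add ht.1,
        ENNReal.ofReal_mul (Real.rpow_nonneg ht.1.le _)]
      simp only [add_sub_cancel_right]
      ring
  refine (lintegral_mono pt).trans ?_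
  rw [lintegral_const_mul' _ _ ENNReal.ofReal_ne_top, key]
  refine mul_le_mul_right ?_ _
  rw [← lintegral_const_mul' _ _ ENNReal.ofReal_ne_top]
  refine lintegral_mono fun z => ?_
  simp only [hG]
  rw [mul_assoc, mul_comm (ENNReal.ofReal _), en_pow z hp0.le,
    ← ENNReal.ofReal_mul (by positivity)]
  refine mul_le_mul_right (ENNReal.ofReal_le_ofReal ?_) _
  rcases (norm_nonneg z).eq_or_lt with hz | hz
  · rw [← hz, Real.zero_rpow hp0.ne', zero_mul]; positivity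
  · rw [← mul_div_assoc, mul_sub, Real.rpow_neg (by positivity), Real.div_rpow hz.le hR.le]
    have : 0 < ‖z‖ ^ p := by positivity
    gcongr
    field_simp
    linarith only [this]

/-- The `L^1` estimate on a truncated cone for a function vanishing at the vertex. -/
theorem ray_one [Nontrivial E] {O : Set E} (hO : MeasurableSet O)
    (hc : ∀ t : ℝ, 0 < t → ∀ x, t • x ∈ O ↔ x ∈ O) {u : E → ℝ} (hu : ContDiff ℝ 1 u)
    (h0 : u 0 = 0) :
    ENNReal.ofReal (finrank ℝ E) * ∫⁻ y in ball 0 1 ∩ O, ‖u y‖ₑ ∂μ ≤ ∫⁻ z in ball 0 1 ∩ O,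
      ENNReal.ofReal (‖z‖ ^ (1 - (finrank ℝ E : ℝ))) * ‖fderiv ℝ u z‖ₑ ∂μ := by
  set d : ℝ := ((finrank ℝ E : ℕ) : ℝ) with hd
  have hd0 : 0 < d := by rw [hd]; exact_mod_cast finrank_pos
  have hg := meas_grad hu
  set G : E → ℝ≥0∞ := fun z => ‖fderiv ℝ u z‖ₑ * ‖z‖ₑ with hG
  have key := ray_swap μ hO hc one_pos hd0 (G := G) (hg.mul (by fun_prop))
  have pt : ∀ z : E, ‖u z‖ₑ ≤
      ∫⁻ t in Ioc (0 : ℝ) 1, ENNReal.ofReal (t ^ (d - 1 - d)) * G (t • z) := by
    intro z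
    have a1 := ftc hu 0 z
    simp only [h0, sub_zero, zero_add] at a1
    refine a1.trans (le_of_eq (setLIntegral_congr_fun measurableSet_Ioc fun t ht => ?_))
    simp only [hG]
    rw [enorm_smul, Real.enorm_eq_ofReal ht.1.le, mul_left_comm, ← mul_assoc (ENNReal.ofReal _),
      ← ENNReal.ofReal_mul (Real.rpow_nonneg ht.1.le _), show d - 1 - d = -1 by ring,
      Real.rpow_neg_one, inv_mul_cancel₀ ht.1.ne']
    simp
  refine (mul_le_mul_right (lintegral_mono pt) _).trans ?_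
  rw [key, ← lintegral_const_mul' _ _ ENNReal.ofReal_ne_top]
  refine lintegral_mono_ae ?_
  filter_upwards [ae_restrict_of_ae (compl_mem_ae_iff.2 (measure_singleton (0 : E)))] with z hz
  have hz0 : 0 < ‖z‖ := norm_pos_iff.2 hz
  simp only [hG]
  rw [mul_comm, mul_assoc, mul_assoc, mul_comm _ ‖fderiv ℝ u z‖ₑ, ← ofReal_norm z,
    ← ENNReal.ofReal_mul' hd0.le, ← ENNReal.ofReal_mul hz0.le]
  refine mul_le_mul_right (ENNReal.ofReal_le_ofReal ?_) _
  rw [div_mul_cancel₀ _ hd0.ne', div_one, sub_eq_add_neg 1 d, Real.rpow_add hz0, Real.rpow_one]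
  linarith only [hz0]

/-- The integral of a power of the norm on a truncated cone. -/
theorem ray_norm [Nontrivial E] {O : Set E} (hO : MeasurableSet O)
    (hc : ∀ t : ℝ, 0 < t → ∀ x, t • x ∈ O ↔ x ∈ O) {s : ℝ} (hs : 0 < s)
    (hsd : s < finrank ℝ E) :
    ∫⁻ z in ball 0 1 ∩ O, ENNReal.ofReal (‖z‖ ^ (s - finrank ℝ E)) ∂μ ≤
      ENNReal.ofReal (finrank ℝ E / s) * μ (ball 0 1 ∩ O) := by
  set d : ℝ := ((finrank ℝ E : ℕ) : ℝ) with hd
  have hq : 0 < d - s := by linarith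
  have key := ray_swap μ hO hc one_pos hq (G := fun _ => 1) measurable_const
  simp only [mul_one, one_mul, div_one] at key
  rw [show d - 1 - (d - s) = -(1 - s) by ring, lintegral_rpow_neg (by linarith),
    setLIntegral_const] at key
  calc _ ≤ ∫⁻ z in ball 0 1 ∩ O, (1 + ENNReal.ofReal (d - s) *
        ENNReal.ofReal ((‖z‖ ^ (-(d - s)) - 1) / (d - s))) ∂μ := by
        refine lintegral_mono fun z => ?_
        rw [← ENNReal.ofReal_mul hq.le, mul_div_cancel₀ _ hq.ne', ← ENNReal.ofReal_one, neg_sub]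
        exact (ENNReal.ofReal_le_ofReal (by linarith)).trans ENNReal.ofReal_add_le
    _ = _ := by
        rw [lintegral_add_left measurable_const, lintegral_const_mul' _ _ ENNReal.ofReal_ne_top,
          ← key, setLIntegral_const, ← mul_assoc, ← add_mul, ← ENNReal.ofReal_mul hq.le,
          ← ENNReal.ofReal_one, ← ENNReal.ofReal_add zero_le_one (by simp only [sub_sub_cancel, one_div]; positivity)]
        congr 2
        simp only [sub_sub_cancel]
        field_simp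
        ring

end Pool.Agent.MP_9e511b_an.H18

end

section

open MeasureTheory Metric Set Module Filter
open scoped ENNReal ContDiff Convolution

namespace Pool.Agent.MP_9e511b_an.H18

variable {E : Type*} [NormedAddCommGroup E] [NormedSpace ℝ E] [FiniteDimensional ℝ E]
  [MeasurableSpace E] [BorelSpace E] (μ : Measure E) [μ.IsAddHaarMeasure]

include μ in
/-- Mollification of a Lipschitz function. -/
theorem exists_moll {g : E → ℝ} {L δ : ℝ} (hL : 0 ≤ L) (hδ : 0 < δ)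
    (gl : ∀ x y, g x ≤ g y + L * dist x y) : ∃ ζ : E → ℝ, ContDiff ℝ ∞ ζ ∧
      (∀ x, ‖fderiv ℝ ζ x‖ ≤ L) ∧ (∀ x a, (∀ y ∈ ball x δ, a ≤ g y) → a ≤ ζ x) ∧
      ∀ x a, (∀ y ∈ ball x δ, g y ≤ a) → ζ x ≤ a := by
  have hgc : Continuous g := (LipschitzWith.of_le_add_mul (⟨L, hL⟩ : NNReal) gl).continuous
  let χ : ContDiffBump (0 : E) := ⟨δ / 2, δ, by positivity, by linarith⟩
  set ζ : E → ℝ := χ.normed μ ⋆[ContinuousLinearMap.lsmul ℝ ℝ, μ] g with hζ
  have hi : ∀ x, Integrable (fun t => χ.normed μ t * g (x - t)) μ := fun x =>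
    (χ.continuous_normed.mul (hgc.comp (by fun_prop))).integrable_of_hasCompactSupport
      χ.hasCompactSupport_normed.mul_right
  have hv : ∀ x, ζ x = ∫ t, χ.normed μ t * g (x - t) ∂μ := fun x => rfl
  have hc : ∀ c : ℝ, c = ∫ t, χ.normed μ t * c ∂μ := fun c => by
    rw [integral_mul_const, χ.integral_normed, one_mul]
  have hm : ∀ (t : E) (a b : ℝ), (‖t‖ < δ → a ≤ b) → χ.normed μ t * a ≤ χ.normed μ t * b := by
    intro t a b h
    by_cases ht : χ.normed μ t = 0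
    · simp [ht]
    · exact mul_le_mul_of_nonneg_left (h (mem_ball_zero_iff.1 (χ.support_normed_eq.subset ht)))
        (χ.nonneg_normed t)
  refine ⟨ζ, χ.hasCompactSupport_normed.contDiff_convolution_left _ χ.contDiff_normed
    hgc.locallyIntegrable, fun x => norm_fderiv_le_of_lipschitz ℝ (C := ⟨L, hL⟩)
      (LipschitzWith.of_le_add_mul _ fun x y => ?_), fun x a h => ?_, fun x a h => ?_⟩
  · rw [hv, hv, hc (_ * dist x y), ← integral_add (hi y) (χ.integrable_normed.mul_const _)]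
    refine integral_mono (hi x) ((hi y).add (χ.integrable_normed.mul_const _)) fun t => ?_
    exact (hm t _ _ fun _ => (gl (x - t) (y - t)).trans_eq (by rw [dist_sub_right]; rfl)).trans_eq
      (mul_add _ _ _)
  · rw [hv, hc a]
    exact integral_mono (χ.integrable_normed.mul_const _) (hi x) fun t =>
      hm t _ _ fun ht => h _ (by simpa using ht)
  · rw [hv, hc a]
    exact integral_mono (hi x) (χ.integrable_normed.mul_const _) fun t =>
      hm t _ _ fun ht => h _ (by simpa using ht)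

include μ in
/-- A smooth cutoff between two sublevel sets of a `1`-Lipschitz function. -/
theorem exists_cut {D : E → ℝ} (hD : ∀ x y, D x ≤ D y + dist x y) (s : ℝ) {γ : ℝ} (hγ : 0 < γ) :
    ∃ ζ : E → ℝ, ContDiff ℝ ∞ ζ ∧ (∀ x, 0 ≤ ζ x ∧ ζ x ≤ 1) ∧ (∀ x, D x < s → ζ x = 1) ∧
      tsupport ζ ⊆ {x | D x < s + γ / 2} ∧ ∀ x, ‖fderiv ℝ ζ x‖ ≤ 8 / γ := by
  have h8 : 0 < 8 / γ := by positivity
  obtain ⟨ζ, z1, z2, z3, z4⟩ := exists_moll μ h8.le (δ := γ / 8) (by positivity)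
    (g := fun x => max 0 (min 1 ((s + γ / 4 - D x) * (8 / γ)))) fun x y => by
      have h1 := mul_le_mul_of_nonneg_right (hD y x) h8.le
      have h2 : 0 ≤ 8 / γ * dist x y := by positivity
      rw [dist_comm] at h1
      rw [← max_add_add_right, ← min_add_add_right]
      exact max_le_max (by linarith only [h2]) (min_le_min (by linarith only [h2]) (by linarith only [h1]))
  have z5 : ∀ x, 0 ≤ ζ x ∧ ζ x ≤ 1 := fun x => ⟨z3 x 0 fun y _ => le_max_left _ _,
    z4 x 1 fun y _ => max_le zero_le_one (min_le_left _ _)⟩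
  refine ⟨ζ, z1, z5, fun x hx => (z5 x).2.antisymm (z3 x 1 fun y hy => le_max_of_le_right
    (le_min le_rfl ?_)), (closure_minimal (t := {x | D x ≤ s + 3 * γ / 8}) (fun x hx => ?_)
      (isClosed_le (LipschitzWith.of_le_add hD).continuous continuous_const)).trans
        fun x (hx : D x ≤ _) => hx.trans_lt (show _ < s + γ / 2 by linarith only [hγ]), z2⟩
  · rw [← mul_div_assoc, le_div_iff₀ hγ]
    linarith [hD y x, mem_ball.1 hy]
  · by_contra h
    exact hx ((z4 x 0 fun y hy => max_le le_rfl (min_le_of_right_le (mul_nonpos_of_nonpos_of_nonneg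
      (by linarith only [hD x y, mem_ball'.1 hy, (not_le.1 h : s + 3 * γ / 8 < D x)]) h8.le))).antisymm
      (z5 x).1)

/-- The mean oscillation on balls of radius `τ` is controlled by the energy. -/
theorem transl {ψ : E → ℝ} (hψ : ContDiff ℝ 1 ψ) {A A' : Set E} (hA : MeasurableSet A)
    (hA' : MeasurableSet A') {τ p : ℝ} (hτ : 0 < τ) (hp : 1 < p) (h : ∀ x ∈ A, ball x τ ⊆ A') :
    ∫⁻ x in A, (∫⁻ z in ball 0 τ, ‖ψ (x + z) - ψ x‖ₑ ∂μ) ^ p ∂μ ≤
      μ (ball 0 τ) ^ p * (ENNReal.ofReal (τ ^ p) * ∫⁻ y in A', ‖fderiv ℝ ψ y‖ₑ ^ p ∂μ) := by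
  have hp0 : 0 < p := by linarith
  set G : E → ℝ≥0∞ := A'.indicator fun y => ENNReal.ofReal τ * ‖fderiv ℝ ψ y‖ₑ with hG
  have hGm : Measurable G := ((meas_grad hψ).const_mul _).indicator hA'
  set ν := (μ.restrict (ball 0 τ)).prod (volume.restrict (Ioc (0 : ℝ) 1)) with hν
  have hν1 : ν univ = μ (ball 0 τ) := by
    rw [hν, ← univ_prod_univ, Measure.prod_prod]; simp only [MeasurableSet.univ, Measure.restrict_apply, univ_inter, Real.volume_Ioc, sub_zero, ENNReal.ofReal_one, mul_one]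
  have pt : ∀ x ∈ A, (∫⁻ z in ball 0 τ, ‖ψ (x + z) - ψ x‖ₑ ∂μ) ^ p ≤
      (∫⁻ w, G (x + w.2 • w.1) ^ p ∂ν) * μ (ball 0 τ) ^ (p - 1) := by
    intro x hx
    rw [← hν1]
    refine le_trans (ENNReal.rpow_le_rpow ?_ hp0.le) (jensen ν (by fun_prop) hp)
    rw [hν, lintegral_prod _ (by fun_prop)]
    refine setLIntegral_mono' measurableSet_ball fun z hz => (ftc hψ x z).trans
      (setLIntegral_mono' measurableSet_Ioc fun t ht => ?_)
    have hz' : ‖z‖ < τ := mem_ball_zero_iff.1 hz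
    have : x + t • z ∈ A' := h x hx (by
      rw [mem_ball, dist_eq_norm, add_sub_cancel_left, norm_smul, Real.norm_of_nonneg ht.1.le]
      exact (mul_le_of_le_one_left (norm_nonneg _) ht.2).trans_lt hz')
    rw [hG, indicator_of_mem this, mul_comm, ← ofReal_norm z]
    gcongr
  refine (setLIntegral_mono' hA pt).trans ((setLIntegral_le_lintegral _ _).trans (le_of_eq ?_))
  rw [lintegral_mul_const _ (Measurable.lintegral_prod_right (by fun_prop)),
    lintegral_lintegral_swap (by fun_prop)]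
  have e : ∀ w : E × ℝ, ∫⁻ x, G (x + w.2 • w.1) ^ p ∂μ =
      ENNReal.ofReal (τ ^ p) * ∫⁻ y in A', ‖fderiv ℝ ψ y‖ₑ ^ p ∂μ := by
    intro w
    rw [lintegral_add_right_eq_self (μ := μ) (fun x => G x ^ p), ← lintegral_indicator hA',
      ← lintegral_const_mul' _ _ ENNReal.ofReal_ne_top]
    refine lintegral_congr fun y => ?_
    by_cases hy : y ∈ A' <;> simp [hG, hy, hp0, ENNReal.mul_rpow_of_nonneg _ _ hp0.le,
      ENNReal.ofReal_rpow_of_nonneg hτ.le hp0.le]
  simp_rw [e]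
  rw [lintegral_const, hν1, mul_assoc, mul_comm]
  congr 1
  rw [← ENNReal.rpow_one (μ _), ← ENNReal.rpow_mul, ← ENNReal.rpow_mul,
    ← ENNReal.rpow_add_of_nonneg _ _ zero_le_one (by linarith only [hp])]
  congr 1
  ring

/-- An interpolation inequality between the local `L^1` norm and the energy. -/
theorem ehrling {ψ : E → ℝ} (hψ : ContDiff ℝ 1 ψ) {A A' : Set E} (hA : MeasurableSet A)
    (hA' : MeasurableSet A') {τ p b M : ℝ} (hτ : 0 < τ) (hp : 1 < p) (hb : 0 ≤ b) (hM : 0 ≤ M)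
    (h : ∀ x ∈ A, ball x τ ⊆ A')
    (hm : ∀ x ∈ A, ∫⁻ y in ball x τ, ‖ψ y - 1‖ₑ ∂μ ≤ ENNReal.ofReal M * μ (ball 0 τ)) :
    ∫⁻ x in A, ‖1 + b - ψ x‖ₑ ^ p ∂μ ≤ 2 ^ (p - 1) * (ENNReal.ofReal ((b + M) ^ p) * μ A +
      ENNReal.ofReal (τ ^ p) * ∫⁻ y in A', ‖fderiv ℝ ψ y‖ₑ ^ p ∂μ) := by
  have hp0 : 0 < p := by linarith
  set B := μ (ball (0 : E) τ) with hB
  have hB0 : B ≠ 0 := (measure_ball_pos μ _ hτ).ne'
  have hBt : B ≠ ⊤ := measure_ball_lt_top.ne
  have hc := hψ.continuous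
  have pt : ∀ x ∈ A, ‖1 + b - ψ x‖ₑ ^ p ≤ 2 ^ (p - 1) * (ENNReal.ofReal ((b + M) ^ p) +
      B⁻¹ ^ p * (∫⁻ z in ball 0 τ, ‖ψ (x + z) - ψ x‖ₑ ∂μ) ^ p) := by
    intro x hx
    rw [← ENNReal.mul_rpow_of_nonneg _ _ hp0.le,
      ← ENNReal.ofReal_rpow_of_nonneg (by positivity) hp0.le]
    refine le_trans (ENNReal.rpow_le_rpow ?_ hp0.le)
      (ENNReal.rpow_add_le_mul_rpow_add_rpow _ _ hp.le)
    rw [← ENNReal.mul_le_mul_iff_right hB0 hBt, mul_add, ← mul_assoc,
      ENNReal.mul_inv_cancel hB0 hBt, one_mul, ENNReal.ofReal_add hb hM, mul_add, mul_comm,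
      ← setLIntegral_const, mul_comm B (ENNReal.ofReal M)]
    refine le_trans ?_ (add_le_add_left (add_le_add_right (hm x hx) _) _)
    rw [ball_shift μ _ x, mul_comm, ← setLIntegral_const, ← lintegral_add_left measurable_const,
      ← lintegral_add_right _ (Continuous.measurable (by fun_prop))]
    refine lintegral_mono fun z => ?_
    rw [show 1 + b - ψ x = b - (ψ (x + z) - 1) + (ψ (x + z) - ψ x) by ring,
      ← Real.enorm_eq_ofReal hb]
    exact (enorm_add_le _ _).trans (add_le_add_left (enorm_sub_le) _)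
  refine (setLIntegral_mono' hA pt).trans ?_
  have hBp : B⁻¹ ^ p ≠ ⊤ := ENNReal.rpow_ne_top_of_nonneg hp0.le (ENNReal.inv_ne_top.2 hB0)
  rw [lintegral_const_mul' _ _ (ENNReal.rpow_ne_top_of_nonneg (by linarith) (by simp)),
    lintegral_add_left measurable_const, setLIntegral_const, lintegral_const_mul' _ _ hBp]
  refine mul_le_mul_right (add_le_add_right ?_ _) _
  refine (mul_le_mul_right (transl μ hψ hA hA' hτ hp h) _).trans (le_of_eq ?_)
  rw [← mul_assoc, ← ENNReal.mul_rpow_of_nonneg _ _ hp0.le, ENNReal.inv_mul_cancel hB0 hBt]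
  simp

theorem conv_pow {z g w p : ℝ} {k : ℕ} (h0 : 0 ≤ z) (h1 : z ≤ 1) (hg : 0 ≤ g) (hw : 0 ≤ w)
    (hp : 1 < p) (hk : p ≤ (k + 1 : ℕ)) :
    ((1 - z ^ (k + 1)) * g + z ^ k * w) ^ p ≤ (1 - z ^ (k + 1)) * g ^ p + w ^ p := by
  have hk0 : k ≠ 0 := by rintro rfl; simp at hk; linarith
  rcases h0.eq_or_lt with rfl | h0
  · simp [hk0]; positivity
  have h2 : z ^ (k + 1) ≤ 1 := pow_le_one₀ h0.le h1
  have := (convexOn_rpow hp.le).2 (mem_Ici.2 hg) (mem_Ici.2 (by positivity : 0 ≤ w / z))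
    (by linarith : 0 ≤ 1 - z ^ (k + 1)) (by positivity : 0 ≤ z ^ (k + 1)) (by ring)
  simp only [smul_eq_mul] at this
  rw [show z ^ k * w = z ^ (k + 1) * (w / z) by field_simp; ring]
  refine this.trans (add_le_add_right ?_ _)
  rw [Real.div_rpow hw h0.le, ← mul_div_assoc, div_le_iff₀ (by positivity), mul_comm]
  refine mul_le_mul_of_nonneg_left ?_ (by positivity)
  rw [← Real.rpow_natCast]
  exact Real.rpow_le_rpow_of_exponent_ge h0 h1 hk

theorem bern {t p : ℝ} (hp : 1 ≤ p) : 1 + p * (t - 1) ≤ |t| ^ p := by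
  have := one_add_mul_self_le_rpow_one_add (s := |t| - 1) (by linarith [abs_nonneg t]) hp
  rw [add_sub_cancel] at this
  nlinarith only [le_abs_self t, hp, this]

/-- Test functions in `Ω`. -/
def Test (Ω : Set E) (φ : E → ℝ) : Prop :=
  ContDiff ℝ ∞ φ ∧ HasCompactSupport φ ∧ tsupport φ ⊆ Ω

/-- `lam` is at most the Rayleigh quotient of every test function. -/
def Low (Ω : Set E) (p lam : ℝ) : Prop := ∀ φ, Test Ω φ →
  ENNReal.ofReal lam * ∫⁻ x, ‖φ x‖ₑ ^ p ∂μ ≤ ∫⁻ x, ‖fderiv ℝ φ x‖ₑ ^ p ∂μ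

omit [μ.IsAddHaarMeasure] in
/-- Comparison of `ψ` with the competitor `(1 - η) ψ + η (1 + b)`. -/
theorem compete {Ω A₀ A : Set E} (hA₀ : MeasurableSet A₀)
    (hA : MeasurableSet A) (hb : Bornology.IsBounded A) (hAΩ : A ⊆ Ω) {p lam b L : ℝ} {k : ℕ}
    (hp : 1 < p) (hk : p ≤ (k + 1 : ℕ)) (hb0 : 0 ≤ b) (hl : Low μ Ω p lam) {ψ ζ : E → ℝ}
    (hψ : Test Ω ψ) (hζ : ContDiff ℝ ∞ ζ) (h01 : ∀ x, 0 ≤ ζ x ∧ ζ x ≤ 1) (h1 : ∀ x ∈ A₀, ζ x = 1)
    (hs : tsupport ζ ⊆ A) (hL : ∀ x, ‖fderiv ℝ ζ x‖ ≤ L) :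
    ENNReal.ofReal lam * (μ Ω + ENNReal.ofReal (p * b) * μ A₀) +
        ∫⁻ x in A₀, ‖fderiv ℝ ψ x‖ₑ ^ p ∂μ ≤
      ∫⁻ x, ‖fderiv ℝ ψ x‖ₑ ^ p ∂μ +
        ENNReal.ofReal lam * (ENNReal.ofReal p * ∫⁻ x in Ω, ‖ψ x - 1‖ₑ ∂μ) +
        ENNReal.ofReal (((k + 1 : ℕ) * L) ^ p) * ∫⁻ x in A, ‖1 + b - ψ x‖ₑ ^ p ∂μ := by
  obtain ⟨s1, s2, s3⟩ := hψ
  have hp0 : 0 < p := by linarith
  have hL0 : 0 ≤ L := (norm_nonneg _).trans (hL 0)
  have c1 := s1.continuous
  have g1 := meas_grad (s1.of_le (by simp) : ContDiff ℝ 1 ψ)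
  set v : E → ℝ := fun x => ψ x + ζ x ^ (k + 1) * (1 + b - ψ x) with hv
  have hsub : tsupport v ⊆ tsupport ψ ∪ tsupport ζ := by
    refine closure_minimal (fun x hx => ?_) ((isClosed_tsupport _).union (isClosed_tsupport _))
    by_contra h
    rw [mem_union, not_or] at h
    exact hx (by simp [hv, image_eq_zero_of_notMem_tsupport h.1,
      image_eq_zero_of_notMem_tsupport h.2])
  have hvs : ContDiff ℝ ∞ v := by fun_prop
  have key := hl v ⟨hvs, (s2.union (isCompact_of_isClosed_isBounded (isClosed_tsupport ζ)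
    (hb.subset hs))).of_isClosed_subset (isClosed_tsupport _) hsub,
    hsub.trans (union_subset s3 (hs.trans hAΩ))⟩
  have hη : ∀ x, 0 ≤ ζ x ^ (k + 1) ∧ ζ x ^ (k + 1) ≤ 1 := fun x =>
    ⟨pow_nonneg (h01 x).1 _, pow_le_one₀ (h01 x).1 (h01 x).2⟩
  have a1 : μ Ω + ENNReal.ofReal (p * b) * μ A₀ ≤
      ∫⁻ x, ‖v x‖ₑ ^ p ∂μ + ENNReal.ofReal p * ∫⁻ x in Ω, ‖ψ x - 1‖ₑ ∂μ := by
    have hsΩ : A₀ ⊆ Ω := fun x hx => hAΩ (hs (subset_tsupport ζ (by simp [h1 x hx])))
    rw [← setLIntegral_const, ← setLIntegral_one, ← inter_eq_left.2 hsΩ,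
      ← Measure.restrict_restrict hA₀, ← lintegral_indicator hA₀,
      ← lintegral_add_left measurable_const, ← lintegral_const_mul' _ _ ENNReal.ofReal_ne_top]
    refine le_trans ?_ (add_le_add_left (setLIntegral_le_lintegral Ω _) _)
    rw [← lintegral_add_left (hvs.continuous.enorm.measurable.pow_const _)]
    refine lintegral_mono fun x => ?_
    have b1 := bern (t := v x) hp.le
    have b2 : 0 ≤ (1 - ζ x ^ (k + 1)) * (|ψ x - 1| + (ψ x - 1)) :=
      mul_nonneg (by linarith only [hη x]) (by linarith [neg_abs_le (ψ x - 1)])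
    have b3 := mul_nonneg (hη x).1 (abs_nonneg (ψ x - 1))
    have b4 : ζ x ^ (k + 1) * b - |ψ x - 1| ≤ v x - 1 := by simp only [hv]; linarith only [b2, b3]
    have b5 := mul_le_mul_of_nonneg_left b4 hp0.le
    rw [en_pow _ hp0.le, Real.enorm_eq_ofReal_abs, Real.norm_eq_abs, ← ENNReal.ofReal_mul hp0.le,
      ← ENNReal.ofReal_add (by positivity) (by positivity), ← ENNReal.ofReal_one]
    by_cases hx : x ∈ A₀
    · rw [indicator_of_mem hx, ← ENNReal.ofReal_add zero_le_one (by positivity)]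
      rw [h1 x hx] at b5
      exact ENNReal.ofReal_le_ofReal (by simp only [one_pow] at b5; linarith only [b1, b5])
    · rw [indicator_of_notMem hx, add_zero]
      exact ENNReal.ofReal_le_ofReal (by linarith only [mul_nonneg hp0.le (mul_nonneg (hη x).1 hb0), b1, b5])
  have a2 : ∫⁻ x, ‖fderiv ℝ v x‖ₑ ^ p ∂μ + ∫⁻ x in A₀, ‖fderiv ℝ ψ x‖ₑ ^ p ∂μ ≤
      ∫⁻ x, ‖fderiv ℝ ψ x‖ₑ ^ p ∂μ +
        ENNReal.ofReal (((k + 1 : ℕ) * L) ^ p) * ∫⁻ x in A, ‖1 + b - ψ x‖ₑ ^ p ∂μ := by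
    rw [← lintegral_const_mul' _ _ ENNReal.ofReal_ne_top, ← lintegral_indicator hA₀,
      ← lintegral_indicator hA, ← lintegral_add_left (g1.pow_const _),
      ← lintegral_add_right _ ((g1.pow_const _).indicator hA₀)]
    refine lintegral_mono fun x => ?_
    have d1 := (s1.differentiable (by simp) x).hasFDerivAt
    have d2 := (hζ.differentiable (by simp) x).hasFDerivAt
    have d3 : HasFDerivAt v _ x := d1.add ((d2.pow (k + 1)).mul (d1.const_sub (1 + b)))
    set w : ℝ := (k + 1 : ℕ) * ‖fderiv ℝ ζ x‖ * |1 + b - ψ x| with hw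
    have b1 : ‖fderiv ℝ v x‖ ≤ (1 - ζ x ^ (k + 1)) * ‖fderiv ℝ ψ x‖ + ζ x ^ k * w := by
      have : fderiv ℝ v x = (1 - ζ x ^ (k + 1)) • fderiv ℝ ψ x +
          (ζ x ^ k * ((k + 1 : ℕ) * (1 + b - ψ x))) • fderiv ℝ ζ x := by
        rw [d3.fderiv]; ext y; simp only [smul_neg, add_tsub_cancel_right, nsmul_eq_mul, Nat.cast_add, Nat.cast_one, add_apply, neg_apply, smul_apply, smul_eq_mul]; ring
      rw [this]
      refine (norm_add_le _ _).trans (le_of_eq ?_)
      rw [norm_smul, norm_smul, Real.norm_of_nonneg (by linarith only [hη x]), norm_mul, norm_mul,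
        Real.norm_of_nonneg (pow_nonneg (h01 x).1 _), Real.norm_natCast, Real.norm_eq_abs, hw]
      ring
    have b2 := (Real.rpow_le_rpow (norm_nonneg _) b1 hp0.le).trans
      (conv_pow (h01 x).1 (h01 x).2 (norm_nonneg _) (by positivity) hp hk)
    have b3 : ENNReal.ofReal (w ^ p) ≤ A.indicator
        (fun x => ENNReal.ofReal (((k + 1 : ℕ) * L) ^ p) * ‖1 + b - ψ x‖ₑ ^ p) x := by
      by_cases hx : x ∈ A
      · rw [indicator_of_mem hx, en_pow _ hp0.le, ← ENNReal.ofReal_mul (by positivity),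
          ← Real.mul_rpow (by positivity) (by positivity), hw, Real.norm_eq_abs]
        gcongr
        exact hL x
      · have : fderiv ℝ ζ x = 0 := by
          by_contra h
          exact hx (hs (support_fderiv_subset ℝ h))
        simp only [hw, Nat.cast_add, Nat.cast_one, this, norm_zero, mul_zero, zero_mul, ne_eq, hp0.ne', not_false_eq_true, Real.zero_rpow, ENNReal.ofReal_zero, zero_le]
    refine le_trans ?_ (add_le_add_right b3 _)
    have b4 : 0 ≤ ‖fderiv ℝ ψ x‖ ^ p := by positivity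
    rw [en_pow _ hp0.le, en_pow _ hp0.le, ← ENNReal.ofReal_add b4 (by positivity)]
    by_cases hx : x ∈ A₀
    · rw [indicator_of_mem hx, en_pow _ hp0.le, ← ENNReal.ofReal_add (by positivity) b4]
      rw [h1 x hx] at b2
      exact ENNReal.ofReal_le_ofReal (by simp only [one_pow] at b2; linarith only [b2])
    · rw [indicator_of_notMem hx, add_zero]
      exact ENNReal.ofReal_le_ofReal (by linarith only [mul_nonneg (hη x).1 b4, b2])
  calc _ ≤ ENNReal.ofReal lam * (∫⁻ x, ‖v x‖ₑ ^ p ∂μ +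
        ENNReal.ofReal p * ∫⁻ x in Ω, ‖ψ x - 1‖ₑ ∂μ) + ∫⁻ x in A₀, ‖fderiv ℝ ψ x‖ₑ ^ p ∂μ := by
        gcongr
    _ ≤ (∫⁻ x, ‖fderiv ℝ v x‖ₑ ^ p ∂μ + ∫⁻ x in A₀, ‖fderiv ℝ ψ x‖ₑ ^ p ∂μ) +
        ENNReal.ofReal lam * (ENNReal.ofReal p * ∫⁻ x in Ω, ‖ψ x - 1‖ₑ ∂μ) := by
        rw [mul_add, add_right_comm]; gcongr
    _ ≤ _ := by rw [add_right_comm (∫⁻ x, ‖fderiv ℝ ψ x‖ₑ ^ p ∂μ)]; gcongr

end Pool.Agent.MP_9e511b_an.H18

end

section

open MeasureTheory Metric Set Module Filter Topology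
open scoped ENNReal ContDiff

namespace Pool.Agent.MP_9e511b_an.H18

theorem iter {X : ℕ → ℝ} {Y e K θ M : ℝ} (hX : ∀ j, 0 ≤ X j) (hM : ∀ j, X j ≤ M) (he : 0 ≤ e)
    (hK : 1 ≤ K) (hθ : 0 ≤ θ) (hθK : θ * K ≤ 1 / 2)
    (h : ∀ j, X j + Y ≤ K ^ j * e + θ * X (j + 1)) : Y ≤ 2 * e := by
  rcases le_total Y 0 with hY | hY
  · linarith only [he, hY]
  have key : ∀ n j, X j ≤ 2 * K ^ j * e + θ ^ n * M := by
    intro n
    induction n with
    | zero => intro j; have : 0 ≤ 2 * K ^ j * e := by positivity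
              linarith only [hM j, this]
    | succ n ih =>
      intro j
      have h1 := mul_le_mul_of_nonneg_left (ih (j + 1)) hθ
      have h2 := mul_le_mul_of_nonneg_right hθK (by positivity : 0 ≤ 2 * K ^ j * e)
      have h3 := h j
      rw [pow_succ] at h1 ⊢
      linarith only [hY, h1, h2, h3]
  have lim : Tendsto (fun n : ℕ => 2 * K ^ 1 * e + θ ^ n * M) atTop (𝓝 (2 * K ^ 1 * e + 0 * M)) :=
    ((tendsto_pow_atTop_nhds_zero_of_lt_one hθ (by nlinarith only [hK, hθK])).mul_const M).const_add _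
  have h1 := mul_le_mul_of_nonneg_left (ge_of_tendsto' lim fun n => key n 1) hθ
  have h2 := mul_le_mul_of_nonneg_right hθK he
  have h3 := h 0
  have h4 := hX 0
  simp only [pow_zero, zero_add] at h3
  linarith only [h1, h2, h4, h3]

variable {E : Type*} [NormedAddCommGroup E] [NormedSpace ℝ E] [FiniteDimensional ℝ E]
  [MeasurableSpace E] [BorelSpace E] (μ : Measure E) [μ.IsAddHaarMeasure]

/-- The mass near the complement of `Ω` is controlled by the energy. -/
theorem near_bd [Nontrivial E] {ψ : E → ℝ} (hψ : ContDiff ℝ 1 ψ) {Ω : Set E}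
    (h0 : ∀ x ∉ Ω, ψ x = 0) {p r : ℝ} (hp1 : 1 < p) (hp : (finrank ℝ E : ℝ) < p) (hr : 0 < r) :
    ∫⁻ y in thickening r Ωᶜ, ‖ψ y‖ₑ ^ p ∂μ ≤ ENNReal.ofReal (5 ^ finrank ℝ E *
      (((p - 1) / (p - finrank ℝ E)) ^ (p - 1) * ((3 * r) ^ p / p))) *
        ∫⁻ y, ‖fderiv ℝ ψ y‖ₑ ^ p ∂μ := by
  have hN : MeasurableSet (thickening r Ωᶜ) := isOpen_thickening.measurableSet
  have hg := (meas_grad hψ).pow_const p
  have hm : Measurable ((thickening r Ωᶜ).indicator fun y => ‖ψ y‖ₑ ^ p) :=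
    (hψ.continuous.enorm.measurable.pow_const p).indicator hN
  rw [← ENNReal.mul_le_mul_iff_right (measure_ball_pos μ 0 hr).ne' measure_ball_lt_top.ne,
    ← lintegral_indicator hN, ← lintegral_lintegral_ball μ _ hm,
    ENNReal.ofReal_mul (by positivity), mul_assoc, ← mul_assoc (μ _), mul_comm (μ _),
    ← Measure.addHaar_ball_mul_of_pos μ 0 (by norm_num), mul_left_comm,
    ← lintegral_lintegral_ball μ _ hg, ← lintegral_const_mul' _ _ ENNReal.ofReal_ne_top]
  refine lintegral_mono fun x => ?_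
  by_cases hx : ∃ y ∈ ball x r, y ∈ thickening r Ωᶜ
  · obtain ⟨y, h1, h2⟩ := hx
    obtain ⟨z, h3, h4⟩ := mem_thickening_iff.1 h2
    have h5 : dist x z < 2 * r := by
      linarith [dist_triangle x y z, mem_ball'.1 h1]
    calc _ ≤ ∫⁻ y in ball z (3 * r), ‖ψ y‖ₑ ^ p ∂μ :=
          lintegral_mono' (Measure.restrict_mono (ball_subset_ball' (by linarith)) le_rfl)
            fun y => indicator_le_self _ _ y
      _ ≤ _ := (ray_p μ hψ (h0 z h3) hp1 hp (by positivity)).trans (mul_le_mul_right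
          (lintegral_mono_set (ball_subset_ball' (by linarith [dist_comm x z]))) _)
  · push Not at hx
    rw [setLIntegral_congr_fun measurableSet_ball (g := fun _ => 0)
      fun y hy => indicator_of_notMem (hx y hy) _]
    simp only [lintegral_const, MeasurableSet.univ, Measure.restrict_apply, univ_inter, zero_mul, zero_le]

/-- Most of `Ω` is far from the complement and has a small local mean oscillation. -/
theorem good_set {Ω : Set E} (hΩ : MeasurableSet Ω) {ψ : E → ℝ} (hψ : Continuous ψ) {p r m : ℝ}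
    (hp : 0 < p) (hr : 0 < r) (hm : 0 < m) : ∃ G : Set E,
      (∀ x ∈ G, ball x r ⊆ Ω ∧ ∫⁻ y in ball x r, ‖ψ y - 1‖ₑ ∂μ ≤ ENNReal.ofReal m * μ (ball 0 r)) ∧
      μ Ω ≤ μ G + (ENNReal.ofReal (2 ^ p) * ∫⁻ y in thickening r Ωᶜ, ‖ψ y‖ₑ ^ p ∂μ +
        ENNReal.ofReal (2 + 1 / m) * ∫⁻ y in Ω, ‖ψ y - 1‖ₑ ∂μ) := by
  set N := thickening r Ωᶜ with hN
  have hNm : MeasurableSet N := isOpen_thickening.measurableSet
  set F : E → ℝ≥0∞ := Ω.indicator fun y => ‖ψ y - 1‖ₑ with hF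
  have hFm : Measurable F := Measurable.indicator (Continuous.measurable (by fun_prop)) hΩ
  set B := {x | ENNReal.ofReal m * μ (ball 0 r) ≤ ∫⁻ y in ball x r, F y ∂μ} with hB
  refine ⟨Nᶜ ∩ Bᶜ, fun x hx => ?_, ?_⟩
  · have h1 : ball x r ⊆ Ω := fun y hy => by
      by_contra h
      exact hx.1 (mem_thickening_iff.2 ⟨y, h, mem_ball'.1 hy⟩)
    refine ⟨h1, le_trans (le_of_eq ?_) (le_of_not_ge hx.2 : ∫⁻ y in ball x r, F y ∂μ ≤ _)⟩
    exact setLIntegral_congr_fun measurableSet_ball fun y hy => by simp [hF, h1 hy]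
  have a1 : μ B ≤ ENNReal.ofReal (1 / m) * ∫⁻ y in Ω, ‖ψ y - 1‖ₑ ∂μ := by
    have hm' : Measurable fun x => ∫⁻ y in ball x r, F y ∂μ := by
      simp_rw [ball_shift μ F]
      exact Measurable.lintegral_prod_right (by fun_prop)
    have := mul_meas_ge_le_lintegral (μ := μ) hm' (ENNReal.ofReal m * μ (ball 0 r))
    rw [lintegral_lintegral_ball μ _ hFm, mul_comm (ENNReal.ofReal m), mul_assoc,
      ENNReal.mul_le_mul_iff_right (measure_ball_pos μ 0 hr).ne' measure_ball_lt_top.ne,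
      mul_comm (μ _), lintegral_indicator hΩ] at this
    refine le_trans (le_of_eq ?_) (mul_le_mul_right this _)
    rw [← mul_assoc, ← ENNReal.ofReal_mul (by positivity), one_div_mul_cancel hm.ne']
    simp only [hB, ENNReal.ofReal_one, one_mul]
  have a2 : μ (N ∩ Ω) ≤ ENNReal.ofReal (2 ^ p) * ∫⁻ y in N, ‖ψ y‖ₑ ^ p ∂μ +
      ENNReal.ofReal 2 * ∫⁻ y in Ω, ‖ψ y - 1‖ₑ ∂μ := by
    rw [← setLIntegral_one, ← lintegral_const_mul' _ _ ENNReal.ofReal_ne_top,
      ← lintegral_const_mul' _ _ ENNReal.ofReal_ne_top]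
    refine le_trans ?_ (add_le_add (lintegral_mono_set (inter_subset_left (t := Ω)))
      (lintegral_mono_set (inter_subset_right (s := N))))
    rw [← lintegral_add_right _ (Measurable.const_mul (Continuous.measurable (by fun_prop)) _)]
    refine lintegral_mono fun y => ?_
    rw [en_pow _ hp.le, Real.enorm_eq_ofReal_abs, Real.norm_eq_abs,
      ← ENNReal.ofReal_mul (by positivity), ← ENNReal.ofReal_mul (by positivity),
      ← ENNReal.ofReal_add (by positivity) (by positivity), ← Real.mul_rpow (by simp) (by simp),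
      ENNReal.one_le_ofReal]
    rcases le_total 1 (2 * |ψ y|) with h | h
    · linarith only [Real.one_le_rpow h hp.le, abs_nonneg (ψ y - 1)]
    · have : 0 ≤ (2 * |ψ y|) ^ p := by positivity
      linarith only [neg_le_abs (ψ y - 1), le_abs_self (ψ y), h, this]
  calc μ Ω ≤ μ (Nᶜ ∩ Bᶜ ∪ (N ∩ Ω ∪ B)) := measure_mono fun x hx => by
        by_cases h1 : x ∈ N <;> by_cases h2 : x ∈ B <;> simp [h1, h2, hx]
    _ ≤ μ (Nᶜ ∩ Bᶜ) + (μ (N ∩ Ω) + μ B) :=
        (measure_union_le _ _).trans (add_le_add_right (measure_union_le _ _) _)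
    _ ≤ _ := by
        rw [ENNReal.ofReal_add (by simp) (by positivity), add_mul, ← add_assoc (_ * _)]
        gcongr

theorem gain {t s p : ℝ} (hp : 2 ≤ p) :
    2 * s * |t - 1| + 1 + p * t ≤ |t| ^ p + (p + s ^ 2) := by
  have h := one_add_mul_self_le_rpow_one_add (s := |t| ^ 2 - 1) (by nlinarith) (p := p / 2)
    (by linarith)
  rw [add_sub_cancel, ← Real.rpow_natCast, ← Real.rpow_mul (abs_nonneg t), Real.rpow_natCast,
    sq_abs, show ((2 : ℕ) : ℝ) * (p / 2) = p by push_cast; ring] at h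
  linarith only [sq_nonneg (|t - 1| - s), sq_abs (t - 1), mul_nonneg (sub_nonneg.2 hp) (sq_nonneg (t - 1)), h]

/-- One step of the hole-filling iteration. -/
theorem step {Ω G : Set E} (hb : Bornology.IsBounded Ω) (hG : G.Nonempty) {p lam b r m κ s γ : ℝ}
    {k : ℕ} (hp : 1 < p) (hk : p ≤ (k + 1 : ℕ)) (hb0 : 0 ≤ b) (hm : 0 ≤ m) (hκ : 0 < κ)
    (hκ1 : κ ≤ 1 / 2) (hγ : 0 < γ) (hr : s + γ ≤ r) (hs : 0 < s) (hl : Low μ Ω p lam) {ψ : E → ℝ}
    (hψ : Test Ω ψ) (h : ∀ x ∈ G, ball x r ⊆ Ω ∧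
      ∫⁻ y in ball x r, ‖ψ y - 1‖ₑ ∂μ ≤ ENNReal.ofReal m * μ (ball 0 r)) :
    ENNReal.ofReal lam * (μ Ω + ENNReal.ofReal (p * b) * μ G) +
        ∫⁻ x in {x | infDist x G < s}, ‖fderiv ℝ ψ x‖ₑ ^ p ∂μ ≤
      ∫⁻ x, ‖fderiv ℝ ψ x‖ₑ ^ p ∂μ +
        ENNReal.ofReal lam * (ENNReal.ofReal p * ∫⁻ x in Ω, ‖ψ x - 1‖ₑ ∂μ) +
        ENNReal.ofReal (((k + 1 : ℕ) * (8 / γ)) ^ p) * (2 ^ (p - 1) *
          (ENNReal.ofReal ((b + m * (r / (κ * γ)) ^ finrank ℝ E) ^ p) * μ Ω +
            ENNReal.ofReal ((κ * γ) ^ p) *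
              ∫⁻ x in {x | infDist x G < s + γ}, ‖fderiv ℝ ψ x‖ₑ ^ p ∂μ)) := by
  have hD : ∀ x y : E, infDist x G ≤ infDist y G + dist x y := fun x y =>
    infDist_le_infDist_add_dist
  have ms : ∀ t, MeasurableSet {x : E | infDist x G < t} := fun t =>
    (isOpen_lt (continuous_infDist_pt G) continuous_const).measurableSet
  obtain ⟨ζ, z1, z2, z3, z4, z5⟩ := exists_cut μ hD s hγ
  have hτ : κ * γ ≤ γ / 2 := by linarith only [mul_le_mul_of_nonneg_right hκ1 hγ.le]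
  have hτ0 : 0 < κ * γ := by positivity
  have hr0 : 0 < r := by linarith only [hr, hs, hτ, hτ0]
  have hA : {x : E | infDist x G < s + γ / 2} ⊆ Ω := fun x hx => by
    obtain ⟨y, hy, hxy⟩ := (infDist_lt_iff hG).1 hx
    exact (h y hy).1 (mem_ball.2 (by linarith only [hr, hτ, hτ0, hxy]))
  refine le_trans ?_ ((compete μ (ms s) (ms _) (hb.subset hA) hA hp hk hb0 hl hψ z1 z2 z3 z4
    z5).trans ?_)
  · gcongr
    intro x hx
    simpa [infDist_zero_of_mem hx] using hs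
  refine add_le_add_right (mul_le_mul_right ((ehrling μ (hψ.1.of_le (by simp)) (ms _) (ms (s + γ))
    (M := m * (r / (κ * γ)) ^ finrank ℝ E) hτ0 hp hb0 (by positivity)
    (fun x hx y hy => ?_) fun x hx => ?_).trans (by gcongr)) _) _
  · have h1 : infDist x G < s + γ / 2 := hx
    change infDist y G < _
    linarith only [hD y x, mem_ball.1 hy, hτ, h1]
  · obtain ⟨y, hy, hxy⟩ := (infDist_lt_iff hG).1 hx
    refine (lintegral_mono_set (ball_subset_ball' (by linarith only [hr, hτ, hxy]))).trans ((h y hy).2.trans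
      (le_of_eq ?_))
    rw [ENNReal.ofReal_mul hm, mul_assoc, ← Measure.addHaar_ball_mul_of_pos μ 0
      (div_pos (by linarith only [hr, hs, hτ, hτ0]) hτ0), div_mul_cancel₀ _ hτ0.ne']

theorem two_pow_le {p x y : ℝ} (hx : 0 ≤ x) (hy : 0 ≤ y) :
    x ^ p * (2 ^ (p - 1) * y ^ p) ≤ (2 * x * y) ^ p := by
  have : (2 : ℝ) ^ (p - 1) ≤ 2 ^ p := Real.rpow_le_rpow_of_exponent_le one_le_two (by linarith)
  rw [Real.mul_rpow (by positivity) hy, Real.mul_rpow (by positivity) hx, mul_comm _ (x ^ p),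
    mul_assoc]
  gcongr

theorem conv1 {V W J L X Y : ℝ≥0∞} {a b c e f g p : ℝ} (hJ : J ≠ ⊤) (hV : V ≠ ⊤) (hW : W ≠ ⊤)
    (hL : L ≠ ⊤) (hX : X ≤ J) (hY : Y ≤ J) (ha : 0 ≤ a) (hb : 0 ≤ b) (hc : 0 ≤ c) (he : 0 ≤ e)
    (hf : 0 ≤ f) (hg : 0 ≤ g) (hp : 1 < p)
    (h : ENNReal.ofReal a * (V + ENNReal.ofReal b * W) + X ≤ J + ENNReal.ofReal a *
      (ENNReal.ofReal c * L) + ENNReal.ofReal e * (2 ^ (p - 1) *
        (ENNReal.ofReal f * V + ENNReal.ofReal g * Y))) :
    a * (V.toReal + b * W.toReal) + X.toReal ≤ J.toReal + a * (c * L.toReal) +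
      e * (2 ^ (p - 1) * (f * V.toReal + g * Y.toReal)) := by
  have t2 : (2 : ℝ≥0∞) ^ (p - 1) ≠ ⊤ := ENNReal.rpow_ne_top_of_nonneg (by linarith) (by simp)
  have := ne_top_of_le_ne_top hJ hX
  have := ne_top_of_le_ne_top hJ hY
  replace h := ENNReal.toReal_mono (by finiteness) h
  simpa (disch := first | assumption | finiteness) only [ENNReal.toReal_add, ENNReal.toReal_mul,
    ENNReal.toReal_ofReal, ← ENNReal.toReal_rpow, ENNReal.toReal_ofNat] using h

theorem conv2 {V J L N : ℝ≥0∞} {lam s p : ℝ} (hV : V ≠ ⊤) (hs : 0 < s) (hp : 0 < p)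
    (hJ : J < ENNReal.ofReal (lam * (1 + s ^ 2)) * V) (hN : ENNReal.ofReal lam * N ≤ J)
    (hL : ENNReal.ofReal (2 * s) * L + V + ENNReal.ofReal p * V ≤
      N + ENNReal.ofReal (p + s ^ 2) * V) :
    0 < lam ∧ J ≠ ⊤ ∧ L ≠ ⊤ ∧ J.toReal ≤ lam * (1 + s ^ 2) * V.toReal ∧ L.toReal ≤ s * V.toReal := by
  have hJt := (hJ.trans_le le_top).ne
  have hlam : 0 < lam := by
    by_contra h
    rw [ENNReal.ofReal_of_nonpos (mul_nonpos_of_nonpos_of_nonneg (not_lt.1 h) (by positivity))]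
      at hJ
    simp at hJ
  have hNt : N ≠ ⊤ := fun h => by
    rw [h, ENNReal.mul_top (by simpa using hlam)] at hN
    exact hJt (top_le_iff.1 hN)
  have hLt : L ≠ ⊤ := fun h => by
    rw [h, ENNReal.mul_top (by simpa only [Nat.ofNat_nonneg, ENNReal.ofReal_mul, ENNReal.ofReal_ofNat, ne_eq, mul_eq_zero, OfNat.ofNat_ne_zero, ENNReal.ofReal_eq_zero, false_or, not_le] using hs), top_add, top_add] at hL
    exact absurd (top_le_iff.1 hL) (by finiteness)
  replace hJ := ENNReal.toReal_mono (by finiteness) hJ.le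
  replace hL := ENNReal.toReal_mono (by finiteness) hL
  replace hN := ENNReal.toReal_mono hJt hN
  simp (disch := first | positivity | finiteness) only [ENNReal.toReal_add, ENNReal.toReal_mul,
    ENNReal.toReal_ofReal] at hJ hL hN
  have : N.toReal ≤ (1 + s ^ 2) * V.toReal := le_of_mul_le_mul_left (by linarith) hlam
  exact ⟨hlam, hJt, hLt, hJ, le_of_mul_le_mul_left (by linarith) (by positivity : 0 < 2 * s)⟩

theorem conv3 {V W J L : ℝ≥0∞} {lam s p α r : ℝ} {d : ℕ} (hJ : J ≠ ⊤) (hW : W ≠ ⊤) (hL : L ≠ ⊤)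
    (hlam : 0 < lam) (hs0 : 0 < s) (hs1 : s ≤ 1 / 8) (hd1 : 1 ≤ d) (hdp : (d : ℝ) < p) (hp2 : 2 ≤ p)
    (hα0 : 0 < α) (hr0 : 0 < r) (hr : r ^ p = (1 / 240) ^ p * (α ^ (p - 1) / lam))
    (h1 : J.toReal ≤ lam * (1 + s ^ 2) * V.toReal) (hL1 : L.toReal ≤ s * V.toReal)
    (h : V ≤ W + (ENNReal.ofReal (2 ^ p) * (ENNReal.ofReal (5 ^ d * (α⁻¹ ^ (p - 1) *
      ((3 * r) ^ p / p))) * J) + ENNReal.ofReal (2 + 1 / (8 * s)) * L)) :
    V.toReal / 2 ≤ W.toReal := by
  have hp0 : 0 < p := by linarith only [hp2]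
  replace h := ENNReal.toReal_mono (by finiteness) h
  simp (disch := first | positivity | finiteness) only [ENNReal.toReal_add, ENNReal.toReal_mul,
    ENNReal.toReal_ofReal] at h
  have hV : 0 ≤ V.toReal := ENNReal.toReal_nonneg
  have e2 : (2 : ℝ) ^ p * 3 ^ p * (1 / 240) ^ p ≤ (1 / 40) ^ d := by
    rw [← Real.mul_rpow (by norm_num) (by norm_num), ← Real.mul_rpow (by norm_num) (by norm_num),
      ← Real.rpow_natCast, show (2 : ℝ) * 3 * (1 / 240) = 1 / 40 by norm_num]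
    exact Real.rpow_le_rpow_of_exponent_ge (by norm_num) (by norm_num) hdp.le
  have e3 : (5 : ℝ) ^ d * (1 / 40) ^ d ≤ 1 / 8 := by
    rw [← mul_pow]; norm_num
    exact pow_le_of_le_one (by norm_num) (by norm_num) (by omega)
  have e4 : J.toReal / (lam * p) ≤ V.toReal := by
    rw [div_le_iff₀ (by positivity)]
    have : 1 + s ^ 2 ≤ p := by linarith only [pow_le_one₀ (n := 2) hs0.le (by linarith only [hs0, hs1]), hp2]
    exact h1.trans (by rw [mul_comm V.toReal]; gcongr)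
  have e5 := mul_le_mul_of_nonneg_left hL1 (by positivity : 0 ≤ 2 + 1 / (8 * s))
  have e6 : (2 + 1 / (8 * s)) * (s * V.toReal) = (2 * s + 1 / 8) * V.toReal := by field_simp
  have e7 : 5 ^ d * (2 ^ p * 3 ^ p * (1 / 240) ^ p) * (J.toReal / (lam * p)) ≤ 1 / 8 * V.toReal :=
    mul_le_mul (le_trans (by gcongr) e3) e4 (by positivity) (by norm_num)
  have : 0 < α ^ (p - 1) := by positivity
  rw [Real.inv_rpow hα0.le, Real.mul_rpow (by norm_num) hr0.le, hr, show ∀ a b c J : ℝ, a * (5 ^ d *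
    ((α ^ (p - 1))⁻¹ * (b * (c * (α ^ (p - 1) / lam)) / p)) * J) =
    5 ^ d * (a * b * c) * (J / (lam * p)) by intros; field_simp] at h
  linarith only [mul_le_mul_of_nonneg_right hs1 hV, h, e5, e6, e7]

theorem const2 {K β α r lam p : ℝ} {d j : ℕ} (hK : 0 < K) (hβ : 0 < β) (hα0 : 0 < α) (hr0 : 0 < r)
    (hlam : 0 < lam) (hp0 : 0 < p) (hr : r ^ p = (1 / 240) ^ p * (α ^ (p - 1) / lam)) :
    (K * (8 / (r / 2 ^ (j + 3)))) ^ p * (2 ^ (p - 1) * (β * α + β * α * (2 ^ d) ^ j) ^ p) ≤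
      ((2 ^ (d + 1)) ^ p) ^ j * (lam * (α * (61440 * K * β) ^ p)) := by
  have a2 : (1 : ℝ) ≤ (2 ^ d) ^ j := one_le_pow₀ (one_le_pow₀ one_le_two)
  have a3 : 2 * (K * (8 / (r / 2 ^ (j + 3)))) * (β * α + β * α * (2 ^ d) ^ j) ≤
      (2 ^ (d + 1)) ^ j * (61440 * K * β) * α * (1 / 240) / r :=
    (mul_le_mul_of_nonneg_left (add_le_add_left
      (le_mul_of_one_le_right (by positivity) a2) _) (by positivity)).trans (le_of_eq (by
        rw [pow_succ 2 d, mul_pow]; field_simp; ring))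
  refine (two_pow_le (by positivity) (by positivity)).trans
    ((Real.rpow_le_rpow (by positivity) a3 hp0.le).trans (le_of_eq ?_))
  rw [Real.div_rpow (by positivity) hr0.le, hr, Real.mul_rpow (by positivity) (by norm_num),
    Real.mul_rpow (by positivity) hα0.le, Real.mul_rpow (by positivity) (by positivity),
    ← Real.rpow_natCast (2 ^ (d + 1)), ← Real.rpow_natCast ((2 ^ (d + 1)) ^ p),
    ← Real.rpow_mul (by positivity), ← Real.rpow_mul (by positivity), mul_comm p,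
    Real.rpow_sub_one hα0.ne']
  field_simp

omit [μ.IsAddHaarMeasure] [NormedSpace ℝ E] [FiniteDimensional ℝ E] in
theorem l1_bound {Ω : Set E} {ψ : E → ℝ} (hψ : Continuous ψ) (out : ∀ x ∉ Ω, ψ x = 0)
    (h0 : ∀ x, 0 ≤ ψ x) (hmean : ∫⁻ x, ‖ψ x‖ₑ ∂μ = μ Ω) {s p : ℝ} (hs0 : 0 < s) (hp2 : 2 ≤ p) :
    ENNReal.ofReal (2 * s) * ∫⁻ x in Ω, ‖ψ x - 1‖ₑ ∂μ + μ Ω + ENNReal.ofReal p * μ Ω ≤
      ∫⁻ x, ‖ψ x‖ₑ ^ p ∂μ + ENNReal.ofReal (p + s ^ 2) * μ Ω := by
  have hp0 : 0 < p := by linarith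
  have e : ∫⁻ x in Ω, ‖ψ x‖ₑ ∂μ = μ Ω := hmean ▸ setLIntegral_eq_of_support_subset
    fun x hx => by_contra fun h => hx (by simp [out x h])
  rw [← setLIntegral_const Ω (ENNReal.ofReal (p + s ^ 2))]
  nth_rewrite 2 [← e]
  rw [← setLIntegral_one, ← lintegral_const_mul' _ _ ENNReal.ofReal_ne_top,
    ← lintegral_const_mul' _ _ ENNReal.ofReal_ne_top, ← lintegral_add_right _ measurable_const,
    ← lintegral_add_right _ (hψ.enorm.measurable.const_mul _)]
  refine le_trans ?_ (add_le_add_left (setLIntegral_le_lintegral Ω _) _)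
  rw [← lintegral_add_right _ measurable_const]
  refine lintegral_mono fun x => ?_
  have := h0 x
  rw [en_pow _ hp0.le, Real.enorm_eq_ofReal_abs, Real.enorm_eq_ofReal this, ← ENNReal.ofReal_one,
    ← ENNReal.ofReal_mul (by positivity), ← ENNReal.ofReal_mul hp0.le,
    ← ENNReal.ofReal_add (by positivity) zero_le_one, ← ENNReal.ofReal_add (by positivity)
    (by positivity), ← ENNReal.ofReal_add (by positivity) (by positivity)]
  exact ENNReal.ofReal_le_ofReal (gain hp2)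

theorem consts (d : ℕ) {K : ℝ} (hK1 : 1 ≤ K) : ∃ κ β σ : ℝ, 0 < κ ∧ κ ≤ 1 / 2 ∧ 0 < β ∧ β ≤ 1 ∧
    0 < σ ∧ σ ≤ β / 8 ∧ (61440 * K * β) ^ 2 = β / 8 ∧ 8 * σ * (8 / κ) ^ d = β ∧
    16 * K * κ = 1 / (2 * 2 ^ (d + 1)) := by
  have hT1 : (1 : ℝ) ≤ 2 ^ (d + 1) := one_le_pow₀ one_le_two
  obtain ⟨κ, hκ⟩ : ∃ κ : ℝ, κ = 1 / (32 * K * 2 ^ (d + 1)) := ⟨_, rfl⟩
  have hκ0 : 0 < κ := by rw [hκ]; positivity
  have hκ1 : κ ≤ 1 / 2 := hκ ▸ one_div_le_one_div_of_le two_pos (by nlinarith only [hK1, hT1])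
  refine ⟨κ, 1 / (8 * (61440 * K) ^ 2), 1 / (8 * (61440 * K) ^ 2) / (8 * (8 / κ) ^ d), hκ0, hκ1,
    by positivity, by rw [div_le_one (by positivity)]; nlinarith only [hK1], by positivity,
    div_le_div_of_nonneg_left (by positivity) (by norm_num) (le_mul_of_one_le_right (by norm_num)
      (one_le_pow₀ (by rw [le_div_iff₀ hκ0]; linarith))), by field_simp, by field_simp,
    by rw [hκ]; field_simp; norm_num⟩

/-- The quantitative gap for a nonnegative test function of mean one. -/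
theorem core [Nontrivial E] (k : ℕ) : ∃ σ : ℝ, 0 < σ ∧ σ ≤ 1 ∧ ∀ p : ℝ, 2 ≤ p →
    (finrank ℝ E : ℝ) < p → p ≤ (k + 1 : ℕ) → ∀ Ω : Set E, IsOpen Ω → Bornology.IsBounded Ω →
    μ Ω ≠ 0 → ∀ lam, Low μ Ω p lam → ∀ ψ, Test Ω ψ → (∀ x, 0 ≤ ψ x) → ∫⁻ x, ‖ψ x‖ₑ ∂μ = μ Ω →
    ENNReal.ofReal (lam * (1 + (σ * ((p - finrank ℝ E) / (p - 1))) ^ 2)) * μ Ω ≤
      ∫⁻ x, ‖fderiv ℝ ψ x‖ₑ ^ p ∂μ := by
  obtain ⟨d, hd⟩ : ∃ d, d = finrank ℝ E := ⟨_, rfl⟩
  have hd1 : 1 ≤ d := hd ▸ finrank_pos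
  obtain ⟨K, hK⟩ : ∃ K : ℝ, K = (k + 1 : ℕ) := ⟨_, rfl⟩
  have hK1 : 1 ≤ K := by rw [hK]; exact_mod_cast Nat.le_add_left 1 k
  have hK0 : 0 < K := by linarith only [hK1]
  obtain ⟨κ, β, σ, hκ0, hκ1, hβ0, hβ1, hσ0, hσβ, hMβ, hσ, hκ⟩ := consts d hK1
  have hT1 : (1 : ℝ) ≤ 2 ^ (d + 1) := one_le_pow₀ one_le_two
  refine ⟨σ, hσ0, by linarith only [hβ1, hσ0, hσβ], fun p hp2 hdp hk Ω hΩ hb hV0 lam hl ψ hψ h0 hmean => ?_⟩
  rw [← hd] at hdp ⊢
  have hd1' : (1 : ℝ) ≤ d := by exact_mod_cast hd1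
  have hp1 : 1 < p := by linarith only [hβ1, hσ0, hσβ, hp2]
  have hp0 : 0 < p := by linarith only [hβ1, hσ0, hσβ, hp2]
  obtain ⟨α, hα⟩ : ∃ α : ℝ, α = (p - d) / (p - 1) := ⟨_, rfl⟩
  have hα0 : 0 < α := hα ▸ div_pos (by linarith only [hdp]) (by linarith only [hβ1, hσ0, hσβ, hp2])
  have hα1 : α ≤ 1 := hα ▸ (div_le_one (by linarith only [hβ1, hσ0, hσβ, hp2])).2 (by linarith only [hd1'])
  rw [← hα]
  have hs0 : 0 < σ * α := by positivity
  have hs1 : σ * α ≤ 1 / 8 := by linarith only [mul_le_of_le_one_right hσ0.le hα1, hβ1, hσβ]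
  by_contra hJ
  have hVt : μ Ω ≠ ⊤ := hb.measure_lt_top.ne
  have c1 : ContDiff ℝ 1 ψ := hψ.1.of_le (by simp)
  have out : ∀ x ∉ Ω, ψ x = 0 := fun x hx => image_eq_zero_of_notMem_tsupport fun h => hx (hψ.2.2 h)
  obtain ⟨hlam, hJt, hLt, hJ, hL1⟩ := conv2 hVt hs0 hp0 (not_le.1 hJ) (hl ψ hψ)
    (l1_bound μ c1.continuous out h0 hmean hs0 hp2)
  obtain ⟨r, hr0, hr⟩ : ∃ r : ℝ, 0 < r ∧ r ^ p = (1 / 240) ^ p * (α ^ (p - 1) / lam) :=
    ⟨1 / 240 * (α ^ (p - 1) / lam) ^ p⁻¹, by positivity, by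
      rw [Real.mul_rpow (by norm_num) (by positivity), Real.rpow_inv_rpow (by positivity) hp0.ne']⟩
  obtain ⟨G, hG, hGm⟩ := good_set μ hΩ.measurableSet c1.continuous hp0 hr0 (m := 8 * (σ * α))
    (by positivity)
  have hGt : μ G ≠ ⊤ := ne_top_of_le_ne_top hVt
    (measure_mono fun x hx => (hG x hx).1 (mem_ball_self hr0))
  have hnb := near_bd μ c1 out hp1 (hd ▸ hdp) hr0
  rw [← hd, ← inv_div, ← hα] at hnb
  have hW := conv3 hJt hGt hLt hlam hs0 hs1 hd1 hdp hp2 hα0 hr0 hr hJ hL1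
    (hGm.trans (add_le_add_right (add_le_add_left (mul_le_mul_right hnb _) _) _))
  have hV := ENNReal.toReal_pos hV0 hVt
  have hGne : G.Nonempty := by
    rw [nonempty_iff_ne_empty]; rintro rfl
    simp only [measure_empty, ENNReal.toReal_zero] at hW; linarith only [hV, hW]
  have key := iter (Y := lam * (μ Ω).toReal * p * (β * α / 2 - σ * α))
    (e := lam * (μ Ω).toReal * ((σ * α) ^ 2 + α * (61440 * K * β) ^ p))
    (X := fun j => (∫⁻ x in {x | infDist x G < r / 2 - r / 2 ^ (j + 2)},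
      ‖fderiv ℝ ψ x‖ₑ ^ p ∂μ).toReal) (K := (2 ^ (d + 1)) ^ p) (θ := (1 / (2 * 2 ^ (d + 1))) ^ p)
    (fun j => ENNReal.toReal_nonneg)
    (fun j => ENNReal.toReal_mono hJt (setLIntegral_le_lintegral _ _)) (by positivity)
    (Real.one_le_rpow hT1 hp0.le) (by positivity) ?_ fun j => ?_
  · have e1 : (61440 * K * β) ^ p ≤ β / 8 := by
      rw [← hMβ, ← Real.rpow_natCast]
      refine Real.rpow_le_rpow_of_exponent_ge (by positivity) ?_ (by exact_mod_cast hp2)
      exact (sq_le_one_iff₀ (by positivity)).1 (by linarith only [hβ1, hMβ])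
    have e2 : p * (β / 2 - σ) ≤ 2 * (σ ^ 2 * α + (61440 * K * β) ^ p) :=
      le_of_mul_le_mul_left (by linarith only [key]) (by positivity : 0 < lam * (μ Ω).toReal * α)
    linarith only [mul_le_mul_of_nonneg_right hp2 (by linarith only [hσ0, hσβ] : 0 ≤ β / 2 - σ), mul_le_mul_of_nonneg_left hs1 hσ0.le, hσ0, hσβ, e1, e2]
  · rw [← Real.mul_rpow (by positivity) (by positivity),
      show (1 : ℝ) / (2 * 2 ^ (d + 1)) * 2 ^ (d + 1) = 1 / 2 by field_simp]
    simpa using Real.rpow_le_rpow_of_exponent_ge (x := 1 / 2) (by norm_num) (by norm_num) hp1.le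
  have h2j : (1 : ℝ) ≤ 2 ^ j := one_le_pow₀ one_le_two
  have hγ0 : 0 < r / 2 ^ (j + 3) := by positivity
  have e0 : r / 2 - r / 2 ^ (j + 2) + r / 2 ^ (j + 3) = r / 2 - r / 2 ^ (j + 1 + 2) := by
    field_simp; ring
  have e00 : r / 2 ^ (j + 2) ≤ r / 4 :=
    div_le_div_of_nonneg_left hr0.le (by norm_num) (by rw [pow_add]; linarith only [h2j])
  have st := step μ hb hGne hp1 hk (b := β * α) (by positivity) (by positivity) hκ0 hκ1 hγ0
    (s := r / 2 - r / 2 ^ (j + 2)) (by rw [e0]; linarith only [hr0, hγ0])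
    (by linarith only [hr0, e00]) hl hψ hG
  have a1 : 8 * (σ * α) * (r / (κ * (r / 2 ^ (j + 3)))) ^ d = β * α * (2 ^ d) ^ j := by
    rw [show r / (κ * (r / 2 ^ (j + 3))) = 8 / κ * 2 ^ j by field_simp; ring, mul_pow,
      ← pow_mul, ← pow_mul, mul_comm d j, ← hσ]
    ring
  rw [e0, ← hK, ← hd, a1] at st
  replace st := conv1 hJt hVt hGt hLt (setLIntegral_le_lintegral _ _) (setLIntegral_le_lintegral _ _)
    hlam.le (by positivity) hp0.le (by positivity) (by positivity) (by positivity) hp1 st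
  have e1 : (K * (8 / (r / 2 ^ (j + 3)))) ^ p * (2 ^ (p - 1) * (κ * (r / 2 ^ (j + 3))) ^ p) ≤
      (1 / (2 * 2 ^ (d + 1))) ^ p :=
    (two_pow_le (by positivity) (by positivity)).trans (le_of_eq (by
      rw [← hκ]; congr 1; field_simp; norm_num))
  have e3 := mul_le_mul_of_nonneg_right e1 (ENNReal.toReal_nonneg (a := ∫⁻ x in
    {x | infDist x G < r / 2 - r / 2 ^ (j + 1 + 2)}, ‖fderiv ℝ ψ x‖ₑ ^ p ∂μ))
  have e4 := mul_le_mul_of_nonneg_right (const2 (d := d) (j := j) hK0 hβ0 hα0 hr0 hlam hp0 hr) hV.le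
  have e5 := mul_le_mul_of_nonneg_left hW (by positivity : 0 ≤ lam * (p * (β * α)))
  have e6 := mul_le_mul_of_nonneg_left hL1 (by positivity : 0 ≤ lam * p)
  have e7 := le_mul_of_one_le_left (by positivity : 0 ≤ lam * (μ Ω).toReal * (σ * α) ^ 2)
    (one_le_pow₀ (n := j) (Real.one_le_rpow hT1 hp0.le))
  linarith only [hJ, st, e3, e4, e5, e6, e7]

/-- `s` bounds the Polya functional, for bounded open sets and test functions. -/
def Good (p s : ℝ) : Prop := ∀ Ω : Set E, IsOpen Ω → Bornology.IsBounded Ω → ∀ lam, Low μ Ω p lam →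
  ∀ ψ, Test Ω ψ → ENNReal.ofReal lam * (∫⁻ x, ‖ψ x‖ₑ ∂μ) ^ p ≤
    ENNReal.ofReal s * μ Ω ^ (p - 1) * ∫⁻ x, ‖fderiv ℝ ψ x‖ₑ ^ p ∂μ

omit [FiniteDimensional ℝ E] in
theorem Test.lint_ne_top {Ω : Set E} {ψ : E → ℝ} (h : Test Ω ψ) : ∫⁻ x, ‖ψ x‖ₑ ∂μ ≠ ⊤ :=
  (h.1.continuous.integrable_of_hasCompactSupport h.2.1).2.ne

theorem upper [Nontrivial E] (k : ℕ) : ∃ σ : ℝ, 0 < σ ∧ σ ≤ 1 ∧ ∀ p : ℝ, 2 ≤ p →
    (finrank ℝ E : ℝ) < p → p ≤ (k + 1 : ℕ) →
    Good μ p (1 / (1 + (σ * ((p - finrank ℝ E) / (p - 1))) ^ 2)) := by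
  obtain ⟨σ, h1, h2, h⟩ := core μ k
  refine ⟨σ, h1, h2, fun p hp2 hdp hk Ω hΩ hb lam hl => ?_⟩
  have hp0 : 0 < p := by linarith
  replace h := h p hp2 hdp hk Ω hΩ hb
  generalize σ * ((p - finrank ℝ E) / (p - 1)) = s at h ⊢
  have pos : ∀ ψ, Test Ω ψ → (∀ x, 0 ≤ ψ x) → ENNReal.ofReal lam * (∫⁻ x, ‖ψ x‖ₑ ∂μ) ^ p ≤
      ENNReal.ofReal (1 / (1 + s ^ 2)) * μ Ω ^ (p - 1) * ∫⁻ x, ‖fderiv ℝ ψ x‖ₑ ^ p ∂μ := by
    intro ψ hψ h0
    have hMt := hψ.lint_ne_top μ
    have hVt : μ Ω ≠ ⊤ := hb.measure_lt_top.ne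
    by_cases hM : ∫⁻ x, ‖ψ x‖ₑ ∂μ = 0
    · simp only [hM, hp0, ENNReal.zero_rpow_of_pos, mul_zero, one_div, zero_le]
    have hV : μ Ω ≠ 0 := fun hV => hM (by
      rw [← setLIntegral_eq_of_support_subset (s := Ω) fun x hx =>
        hψ.2.2 (subset_tsupport ψ fun e => hx (by simp [e])), setLIntegral_measure_zero _ _ hV])
    obtain ⟨c, hc, e⟩ : ∃ c : ℝ, 0 < c ∧ ENNReal.ofReal c * ∫⁻ x, ‖ψ x‖ₑ ∂μ = μ Ω :=
      ⟨_, ENNReal.toReal_pos (ENNReal.div_ne_zero.2 ⟨hV, hMt⟩) (ENNReal.div_ne_top hVt hM), by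
        rw [ENNReal.ofReal_toReal (ENNReal.div_ne_top hVt hM), ENNReal.div_mul_cancel hM hMt]⟩
    have key := h hV lam hl (c • ψ) ⟨hψ.1.const_smul c, hψ.2.1.smul_left,
      (tsupport_smul_subset_right (fun _ => c) ψ).trans hψ.2.2⟩
      (fun x => mul_nonneg hc.le (h0 x)) (by
        rw [← e, ← lintegral_const_mul' _ _ ENNReal.ofReal_ne_top]
        simp [Real.enorm_eq_ofReal hc.le])
    have hct : ENNReal.ofReal c ^ p ≠ ⊤ := ENNReal.rpow_ne_top_of_nonneg hp0.le (by simp)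
    have e2 : ∫⁻ x, ‖fderiv ℝ (c • ψ) x‖ₑ ^ p ∂μ =
        ENNReal.ofReal c ^ p * ∫⁻ x, ‖fderiv ℝ ψ x‖ₑ ^ p ∂μ := by
      rw [← lintegral_const_mul' _ _ hct]
      refine lintegral_congr fun x => ?_
      rw [fderiv_const_smul (hψ.1.differentiable (by simp) x), enorm_smul,
        ENNReal.mul_rpow_of_nonneg _ _ hp0.le, Real.enorm_eq_ofReal hc.le]
    rw [← ENNReal.mul_le_mul_iff_right (a := ENNReal.ofReal c ^ p) (by simp [hc, hp0]) hct,
      mul_left_comm, ← ENNReal.mul_rpow_of_nonneg _ _ hp0.le, e, mul_left_comm, ← e2]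
    refine le_trans (le_of_eq ?_) (mul_le_mul_right key _)
    rw [mul_mul_mul_comm, ← ENNReal.ofReal_mul (by positivity), mul_comm (μ Ω ^ _),
      ← ENNReal.rpow_one (μ Ω), ← ENNReal.rpow_mul, ← ENNReal.rpow_mul,
      ← ENNReal.rpow_add _ _ hV hVt]
    congr 2
    · field_simp
    · ring
  intro ψ hψ
  set φ : ℕ → E → ℝ := fun n x => √(ψ x ^ 2 + (1 / (n + 1)) ^ 2) - 1 / (n + 1) with hφ
  have hε : ∀ n : ℕ, (0 : ℝ) < 1 / (n + 1) := fun n => by positivity
  have p0 : ∀ n x, 0 ≤ φ n x := fun n x =>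
    sub_nonneg.2 (Real.le_sqrt_of_sq_le (le_add_of_nonneg_left (sq_nonneg _)))
  have hs : ∀ n, ContDiff ℝ ∞ (φ n) := fun n =>
    ((((hψ.1.pow 2).add contDiff_const).sqrt fun x => by positivity)).sub contDiff_const
  have sub : ∀ n, Function.support (φ n) ⊆ Function.support ψ := fun n x hx e =>
    hx (by simp only [hφ]; rw [e, zero_pow two_ne_zero, zero_add, Real.sqrt_sq (hε n).le, sub_self])
  have lim := tendsto_lintegral_of_dominated_convergence (μ := μ) (F := fun n x => ‖φ n x‖ₑ)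
    (f := fun x => ‖ψ x‖ₑ) (fun x => ‖ψ x‖ₑ) (fun n => (hs n).continuous.enorm.measurable)
    (fun n => Eventually.of_forall fun x => by
      rw [enorm_le_iff_norm_le, Real.norm_of_nonneg (p0 n x), Real.norm_eq_abs, sub_le_iff_le_add]
      exact Real.sqrt_le_iff.2 ⟨by positivity, by
        linarith only [sq_abs (ψ x), mul_nonneg (abs_nonneg (ψ x)) (hε n).le]⟩)
    (hψ.lint_ne_top μ) (Eventually.of_forall fun x => by
      have t := tendsto_one_div_add_atTop_nhds_zero_nat (𝕜 := ℝ)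
      have := ((((t.pow 2).const_add (ψ x ^ 2)).sqrt).sub t).enorm
      rwa [zero_pow two_ne_zero, add_zero, sub_zero, Real.sqrt_sq_eq_abs, Real.enorm_abs] at this)
  refine le_of_tendsto' (ENNReal.Tendsto.const_mul ((ENNReal.continuous_rpow_const.tendsto _).comp
    lim) (Or.inr ENNReal.ofReal_ne_top)) fun n => (pos (φ n) ⟨hs n, hψ.2.1.mono (sub n),
      (closure_mono (sub n)).trans hψ.2.2⟩ (p0 n)).trans (mul_le_mul_right
        (lintegral_mono fun x => ENNReal.rpow_le_rpow ?_ hp0.le) _)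
  have hq : 0 < ψ x ^ 2 + (1 / (n + 1) : ℝ) ^ 2 := by positivity
  have d := ((((hψ.1.differentiable (by simp) x).hasFDerivAt.pow 2).add_const
    ((1 / (n + 1) : ℝ) ^ 2)).sqrt hq.ne').sub_const (1 / (n + 1) : ℝ)
  rw [enorm_le_iff_norm_le, (show HasFDerivAt (φ n) _ x from d).fderiv, smul_smul, norm_smul]
  refine mul_le_of_le_one_left (norm_nonneg _) ?_
  have := Real.sqrt_pos.2 hq
  rw [Real.norm_eq_abs, abs_mul, abs_of_pos (by positivity), one_div_mul_eq_div,
    div_le_one (by positivity)]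
  simpa only [Nat.add_one_sub_one, pow_one, nsmul_eq_mul, Nat.cast_ofNat, abs_mul, Nat.abs_ofNat, one_div, inv_pow, Nat.ofNat_pos, mul_le_mul_iff_right₀] using Real.abs_le_sqrt (le_add_of_nonneg_right (sq_nonneg (1 / (n + 1) : ℝ)))

end Pool.Agent.MP_9e511b_an.H18

end

section

open MeasureTheory Metric Set Module Filter Topology
open scoped ENNReal ContDiff Real

namespace Pool.Agent.MP_9e511b_an.H18

/-- Euclidean space. -/
abbrev Eu (d : ℕ) : Type := EuclideanSpace ℝ (Fin d)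

variable {d : ℕ}

/-- The open unit cube. -/
def Q (d : ℕ) : Set (Eu d) := {x | ∀ i, x i ∈ Ioo (0 : ℝ) 1}

/-- The lattice of points with even integer coordinates. -/
def Lat (d : ℕ) : Set (Eu d) := {x | ∀ i, x i / 2 ∈ range ((↑) : ℤ → ℝ)}

/-- The reflection attached to a cell. -/
noncomputable def refl (n : Fin d → ℤ) : Eu d ≃ₗᵢ[ℝ] Eu d :=
  LinearIsometryEquiv.piLpCongrRight 2 fun i =>
    if n i % 2 = 0 then LinearIsometryEquiv.refl ℝ ℝ else LinearIsometryEquiv.neg ℝ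

/-- The isometry from the unit cube onto the cell `n`, sending `0` to its even vertex. -/
noncomputable def cell (n : Fin d → ℤ) (t : Eu d) : Eu d :=
  WithLp.toLp 2 (fun i => (((n i + 1) / 2 : ℤ) : ℝ) * 2) + refl n t

theorem cell_apply (n : Fin d → ℤ) (t : Eu d) (i : Fin d) : cell n t i =
    (((n i + 1) / 2 : ℤ) : ℝ) * 2 + if n i % 2 = 0 then t i else -t i := by
  simp only [cell, refl, PiLp.add_apply, LinearIsometryEquiv.piLpCongrRight_apply]
  split_ifs <;> simp only [LinearIsometryEquiv.coe_refl, id_eq, LinearIsometryEquiv.coe_neg]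

theorem isOpen_box (a b : Fin d → ℝ) : IsOpen {x : Eu d | ∀ i, x i ∈ Ioo (a i) (b i)} := by
  simp only [ofPred_forall]
  exact isOpen_iInter_of_finite fun i => isOpen_Ioo.preimage (by fun_prop)

theorem measQ : MeasurableSet (Q d) := (isOpen_box _ _).measurableSet

theorem vol_box (a b : ℝ) : volume {x : Eu d | ∀ i, x i ∈ Ioo a b} = ENNReal.ofReal (b - a) ^ d := by
  have := (PiLp.volume_preserving_ofLp (Fin d)).measure_preimage
    (s := univ.pi fun _ => Ioo a b) (MeasurableSet.univ_pi fun _ => measurableSet_Ioo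
      ).nullMeasurableSet
  rw [Real.volume_pi_Ioo] at this
  simpa only [mem_Ioo, preimage, Set.mem_pi, mem_univ, forall_const, Finset.prod_const, Finset.card_univ, Fintype.card_fin] using this

theorem volQ : volume (Q d) = 1 := (vol_box 0 1).trans (by simp)

theorem norm_le_of {x : Eu d} (h : ∀ i, |x i| ≤ 1) : ‖x‖ ≤ d := by
  refine (sq_le_sq₀ (norm_nonneg _) (Nat.cast_nonneg d)).1 ?_
  rw [EuclideanSpace.real_norm_sq_eq]
  calc _ ≤ ∑ _i : Fin d, (1 : ℝ) := Finset.sum_le_sum fun i _ => by simpa only [sq_le_one_iff_abs_le_one] using h i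
    _ ≤ _ := by simpa only [Finset.sum_const, Finset.card_univ, Fintype.card_fin, nsmul_eq_mul, mul_one] using (by exact_mod_cast Nat.le_self_pow two_ne_zero d)

theorem distQ {x y : Eu d} (hx : x ∈ Q d) (hy : y ∈ Q d) : ‖x - y‖ ≤ d :=
  norm_le_of fun i => by
    rw [PiLp.sub_apply, abs_le]
    constructor <;> linarith [(hx i).1, (hx i).2, (hy i).1, (hy i).2]

/-- Decomposition of an integral over the cells. -/
theorem lint_cells (F : Eu d → ℝ≥0∞) : ∫⁻ x, F x = ∑' n, ∫⁻ t in Q d, F (cell n t) := by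
  set C : (Fin d → ℤ) → Set (Eu d) := fun n => {x | ∀ i, x i ∈ Ioo (n i : ℝ) (n i + 1)} with hC
  have e : ∀ n, ∫⁻ t in Q d, F (cell n t) = ∫⁻ x in C n, F x := by
    intro n
    have mp : MeasurePreserving (cell n) :=
      (measurePreserving_add_left volume _).comp (refl n).measurePreserving
    rw [← mp.setLIntegral_comp_preimage_emb ((measurableEmbedding_addLeft _).comp
      (refl n).toHomeomorph.measurableEmbedding) F (C n)]
    congr 2
    ext t
    refine forall_congr' fun i => ?_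
    rw [cell_apply]
    split_ifs with h
    · have : (((n i + 1) / 2 : ℤ) : ℝ) * 2 = n i := by exact_mod_cast (by omega)
      simp only [mem_Ioo, this, lt_add_iff_pos_right, add_lt_add_iff_left]
    · have : (((n i + 1) / 2 : ℤ) : ℝ) * 2 = n i + 1 := by exact_mod_cast (by omega)
      rw [this, mem_Ioo, mem_Ioo]
      constructor <;> exact fun h => ⟨by linarith only [h.2], by linarith only [h.1]⟩
  simp_rw [e]
  rw [← lintegral_iUnion (fun n => (isOpen_box _ _).measurableSet),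
    Measure.restrict_eq_self_of_ae_mem]
  · have : ∀ᵐ x : Eu d, ∀ (i : Fin d) (k : ℤ), x i ≠ k :=
      ae_all_iff.2 fun i => ae_all_iff.2 fun k =>
        (PiLp.volume_preserving_ofLp (Fin d)).quasiMeasurePreserving.ae
          (Measure.ae_eval_ne (fun _ => volume) i (k : ℝ))
    filter_upwards [this] with x hx
    exact mem_iUnion.2 ⟨fun i => ⌊x i⌋, fun i =>
      ⟨(Int.floor_le _).lt_of_ne (hx i _).symm, Int.lt_floor_add_one _⟩⟩
  · refine fun n m h => disjoint_left.2 fun x h1 h2 => h (funext fun i => ?_)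
    rw [← Int.floor_eq_iff.2 ⟨(h1 i).1.le, (h1 i).2⟩, ← Int.floor_eq_iff.2 ⟨(h2 i).1.le, (h2 i).2⟩]

/-- Smooth functions vanishing near the origin. -/
def Cls (u : Eu d → ℝ) : Prop := ContDiff ℝ ∞ u ∧ ∀ᶠ x in 𝓝 0, u x = 0

/-- `m` is at most the quotient of the cell problem. -/
def CellLow (d : ℕ) (p m : ℝ) : Prop := ∀ u : Eu d → ℝ, Cls u →
  ENNReal.ofReal m * ∫⁻ x in Q d, ‖u x‖ₑ ^ p ≤ ∫⁻ x in Q d, ‖fderiv ℝ u x‖ₑ ^ p

theorem comp_le {u : Eu d → ℝ} {f : Eu d → Eu d} (hu : ContDiff ℝ ∞ u) (hf : ContDiff ℝ ∞ f)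
    (h : LipschitzWith 1 f) (x : Eu d) : ‖fderiv ℝ (u ∘ f) x‖ ≤ ‖fderiv ℝ u (f x)‖ := by
  rw [fderiv_comp x (hu.differentiable (by simp) _) (hf.differentiable (by simp) _)]
  exact (ContinuousLinearMap.opNorm_comp_le _ _).trans
    (mul_le_of_le_one_right (norm_nonneg _) (norm_fderiv_le_of_lipschitz ℝ h))

theorem cell_dist (n : Fin d → ℤ) (x y : Eu d) : dist (cell n x) (cell n y) = dist x y := by
  simp only [cell, dist_add_left, LinearIsometryEquiv.dist_map]

theorem CellLow.low {p m : ℝ} (hp : 0 ≤ p) (h : CellLow d p m) (Ω : Set (Eu d)) :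
    Low volume (Ω \ Lat d) p m := by
  intro φ hφ
  rw [lint_cells, lint_cells fun x => ‖fderiv ℝ φ x‖ₑ ^ p, ← ENNReal.tsum_mul_left]
  refine ENNReal.tsum_le_tsum fun n => ?_
  have hc : ContDiff ℝ ∞ (cell n) := contDiff_const.add (refl n).contDiff
  refine (h (φ ∘ cell n) ⟨hφ.1.comp hc, (hc.continuous.tendsto 0).eventually
    (notMem_tsupport_iff_eventuallyEq.1 fun h => (hφ.2.2 h).2 fun i => ?_)⟩).trans
    (lintegral_mono fun x => ENNReal.rpow_le_rpow (enorm_le_iff_norm_le.2 (comp_le hφ.1 hc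
      (LipschitzWith.of_dist_le_mul fun x y => by simp [cell_dist]) x)) hp)
  exact ⟨(n i + 1) / 2, by simp only [cell_apply, EuclideanDomain.mod_eq_zero, PiLp.zero_apply, neg_zero, ite_self, add_zero, isUnit_iff_ne_zero, ne_eq, OfNat.ofNat_ne_zero, not_false_eq_true, IsUnit.mul_div_cancel_right]⟩

theorem count {F G : Eu d → ℝ≥0∞} (hF : ∀ n t, F (cell n t) = F t) (hG : ∀ n t, G (cell n t) = G t)
    (R : ℝ) : (∫⁻ x in ball 0 R, F x) * ∫⁻ x in Q d, G x ≤
      (∫⁻ x in Q d, F x) * ∫⁻ x in ball 0 (R + d), G x := by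
  rw [← lintegral_indicator measurableSet_ball, ← lintegral_indicator measurableSet_ball,
    lint_cells (indicator _ _), lint_cells (indicator _ _), ← ENNReal.tsum_mul_left,
    ← ENNReal.tsum_mul_right]
  refine ENNReal.tsum_le_tsum fun n => ?_
  by_cases h : ∃ t ∈ Q d, cell n t ∈ ball 0 R
  · obtain ⟨t, h1, h2⟩ := h
    refine mul_le_mul' (lintegral_mono fun x => (indicator_le_self _ _ _).trans (hF n x).le)
      (setLIntegral_mono' measQ fun x hx => ?_)
    rw [indicator_of_mem, hG]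
    have := dist_triangle (cell n x) (cell n t) 0
    rw [cell_dist, dist_eq_norm x] at this
    exact mem_ball.2 (by linarith [mem_ball.1 h2, distQ hx h1])
  · push Not at h
    rw [setLIntegral_congr_fun measQ (g := fun _ => 0) fun y hy => indicator_of_notMem (h y hy) _]
    simp only [lintegral_const, MeasurableSet.univ, Measure.restrict_apply, univ_inter, zero_mul, zero_le]

/-- A smooth approximation of the folding map onto the unit cube. -/
noncomputable def fold (κ : ℝ) (x : Eu d) : Eu d :=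
  WithLp.toLp 2 fun i => Real.arccos (κ * Real.cos (π * x i)) / π

theorem fold_cell (κ : ℝ) (n : Fin d → ℤ) (t : Eu d) : fold κ (cell n t) = fold κ t := by
  ext i
  simp only [fold, cell_apply]
  rw [mul_add, show ∀ a : ℝ, π * (a * 2) = a * (2 * π) by intro; ring, add_comm,
    Real.cos_add_int_mul_two_pi]
  split_ifs <;> simp

theorem fold_lat (κ : ℝ) {x : Eu d} (h : x ∈ Lat d) : fold κ x = fold κ 0 := by
  ext i
  obtain ⟨k, hk⟩ := h i
  simp only [fold]
  rw [show π * x i = k * (2 * π) by rw [hk]; ring, Real.cos_int_mul_two_pi]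
  simp

theorem fold_norm (κ : ℝ) (x : Eu d) : ‖fold κ x‖ ≤ d := norm_le_of fun i => by
  simp only [fold]
  rw [abs_of_nonneg (div_nonneg (Real.arccos_nonneg _) Real.pi_pos.le), div_le_one Real.pi_pos]
  exact Real.arccos_le_pi _

theorem fold_tendsto {x : Eu d} (h : ∀ i, x i ∈ Icc (0 : ℝ) 1) :
    Tendsto (fun κ => fold κ x) (𝓝 1) (𝓝 x) := by
  have := Real.continuous_arccos
  refine Continuous.tendsto' (by unfold fold; fun_prop) _ _ ?_
  ext i
  simp only [fold]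
  rw [one_mul, Real.arccos_cos (mul_nonneg Real.pi_pos.le (h i).1)
    (mul_le_of_le_one_right Real.pi_pos.le (h i).2), mul_div_cancel_left₀ _ Real.pi_pos.ne']

theorem fold_smooth {κ : ℝ} (h0 : 0 ≤ κ) (h1 : κ < 1) :
    ContDiff ℝ ∞ (fold (d := d) κ) ∧ LipschitzWith 1 (fold (d := d) κ) := by
  have hb : ∀ t : ℝ, |κ * Real.cos t| < 1 := fun t => by
    rw [abs_mul, abs_of_nonneg h0]
    exact (mul_le_of_le_one_right h0 (Real.abs_cos_le_one t)).trans_lt h1
  have hd : ∀ t : ℝ, HasDerivAt (fun t => Real.arccos (κ * Real.cos (π * t)) / π)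
      (-(1 / √(1 - (κ * Real.cos (π * t)) ^ 2)) * (κ * (-Real.sin (π * t) * (π * 1))) / π) t :=
    fun t => (HasDerivAt.comp t (h₂ := Real.arccos) (Real.hasDerivAt_arccos
      (abs_lt.1 (hb (π * t))).1.ne' (abs_lt.1 (hb (π * t))).2.ne)
      ((((hasDerivAt_id' t).const_mul π).cos).const_mul κ)).div_const π
  have hl := lipschitzWith_of_nnnorm_deriv_le (C := 1) (fun t => (hd t).differentiableAt) fun t => by
    rw [← NNReal.coe_le_coe, coe_nnnorm, (hd t).deriv]
    have h2 : 0 < 1 - (κ * Real.cos (π * t)) ^ 2 := by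
      simpa only [sub_pos, sq_lt_one_iff_abs_lt_one, abs_mul] using (sq_lt_one_iff_abs_lt_one _).2 (hb (π * t))
    have h3 := Real.sqrt_pos.2 h2
    have h4 : |κ * Real.sin (π * t)| ≤ √(1 - (κ * Real.cos (π * t)) ^ 2) :=
      Real.abs_le_sqrt (by nlinarith [Real.sin_sq_add_cos_sq (π * t), mul_nonneg h0 h0])
    rw [← div_le_one h3, ← abs_of_pos h3, ← abs_div] at h4
    refine le_trans (le_of_eq ?_) h4
    rw [Real.norm_eq_abs]
    congr 1
    field_simp
  refine ⟨contDiff_euclidean.2 fun i => contDiff_iff_contDiffAt.2 fun x =>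
    (ContDiffAt.comp x (g := Real.arccos) (f := fun x : Eu d => κ * Real.cos (π * x i))
      (Real.contDiffAt_arccos (abs_lt.1 (hb _)).1.ne' (abs_lt.1 (hb _)).2.ne)
      (by fun_prop)).div_const π, LipschitzWith.of_dist_le_mul fun x y => ?_⟩
  rw [NNReal.coe_one, one_mul, EuclideanSpace.dist_eq, EuclideanSpace.dist_eq]
  gcongr with i
  simpa only [fold, NNReal.coe_one, one_mul] using hl.dist_le_mul (x i) (y i)

theorem isClosed_lat : IsClosed (Lat d) := by
  simp only [Lat, ofPred_forall]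
  exact isClosed_iInter fun i =>
    Int.isClosedEmbedding_coe_real.isClosed_range.preimage (by fun_prop)

/-- A periodic function vanishing near the lattice, cut off on a large ball. -/
theorem periodic_bound {p s m M : ℝ} (hp : 1 < p) (hg : Good (volume : Measure (Eu d)) p s)
    (hm : CellLow d p m) {U : Eu d → ℝ} (hU : ContDiff ℝ ∞ U) (h0 : ∀ x ∈ Lat d, x ∉ tsupport U)
    (h1 : ∀ n t, U (cell n t) = U t) {G : Eu d → ℝ≥0∞} (h2 : ∀ n t, G (cell n t) = G t)
    (h3 : ∀ x, ‖fderiv ℝ U x‖ₑ ^ p ≤ G x) (h4 : ∀ x, ‖U x‖ ≤ M ∧ ‖fderiv ℝ U x‖ ≤ M)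
    {ε : ℝ} (hε : 0 < ε) (hε1 : (1 + d) * ε < 1) :
    ENNReal.ofReal m * (ENNReal.ofReal ((1 - (1 + d) * ε) ^ d) * ∫⁻ x in Q d, ‖U x‖ₑ) ^ p ≤
      ENNReal.ofReal s * (ENNReal.ofReal ((1 + d * ε) ^ d) * (∫⁻ x in Q d, G x) +
        ENNReal.ofReal ((9 * M) ^ p) * ENNReal.ofReal (1 - (1 - ε) ^ d)) := by
  have hp0 : 0 < p := by linarith
  have hd : (0 : ℝ) ≤ d := Nat.cast_nonneg d
  have hε2 : ε < 1 := by linarith [mul_nonneg hd hε.le]
  obtain ⟨ζ, z1, z2, z3, z4, z5⟩ := exists_cut (volume : Measure (Eu d)) (D := fun x => ‖x‖)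
    (fun x y => by rw [dist_eq_norm, add_comm]; exact norm_le_norm_sub_add x y) (ε⁻¹ - 1) one_pos
  have z6 : tsupport ζ ⊆ ball 0 ε⁻¹ := fun x hx =>
    mem_ball_zero_iff.2 (lt_trans (z4 hx) (by linarith))
  have z7 : tsupport (ζ * U) ⊆ ball 0 ε⁻¹ := (tsupport_mul_subset_left).trans z6
  have key := hg (ball 0 ε⁻¹ \ Lat d) (isOpen_ball.sdiff isClosed_lat)
    (isBounded_ball.subset sdiff_subset) m (hm.low hp0.le _) (ζ * U) ⟨z1.mul hU,
      isCompact_of_isClosed_isBounded (isClosed_tsupport _) (isBounded_ball.subset z7),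
      fun x hx => ⟨z7 hx, fun h => h0 x h (tsupport_mul_subset_right hx)⟩⟩
  set W := volume (ball (0 : Eu d) ε⁻¹) with hW
  have hW0 : W ≠ 0 := (measure_ball_pos _ _ (by positivity)).ne'
  have hWt : W ≠ ⊤ := measure_ball_lt_top.ne
  have vb : ∀ a : ℝ, 0 < a → volume (ball (0 : Eu d) (a * ε⁻¹)) = ENNReal.ofReal (a ^ d) * W :=
    fun a ha => by rw [Measure.addHaar_ball_mul_of_pos _ _ ha, finrank_euclideanSpace_fin]
  have eqU : ∀ x ∈ ball (0 : Eu d) (ε⁻¹ - 1), (ζ * U) x = U x := fun x hx => by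
    simp [z3 x (mem_ball_zero_iff.1 hx)]
  have a1 : W * (ENNReal.ofReal ((1 - (1 + d) * ε) ^ d) * ∫⁻ x in Q d, ‖U x‖ₑ) ≤
      ∫⁻ x, ‖(ζ * U) x‖ₑ := by
    have := count (d := d) (F := fun _ => 1) (G := fun x => ‖U x‖ₑ) (fun _ _ => rfl)
      (fun n t => by rw [h1]) ((1 - (1 + d) * ε) * ε⁻¹)
    rw [setLIntegral_one, setLIntegral_one, volQ, one_mul, vb _ (by linarith only [hε1]),
      show (1 - (1 + d) * ε) * ε⁻¹ + d = ε⁻¹ - 1 by field_simp; ring] at this
    rw [← mul_assoc, mul_comm W]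
    refine this.trans (le_trans (le_of_eq ?_) (setLIntegral_le_lintegral (ball 0 (ε⁻¹ - 1)) _))
    exact setLIntegral_congr_fun measurableSet_ball fun x hx => by simp only [eqU x hx]
  have a2 : ∫⁻ x, ‖fderiv ℝ (ζ * U) x‖ₑ ^ p ≤ W * (ENNReal.ofReal ((1 + d * ε) ^ d) *
      (∫⁻ x in Q d, G x) + ENNReal.ofReal ((9 * M) ^ p) * ENNReal.ofReal (1 - (1 - ε) ^ d)) := by
    have b1 := count (d := d) (F := G) (G := fun _ => 1) h2 (fun _ _ => rfl) ε⁻¹
    rw [setLIntegral_one, setLIntegral_one, volQ, mul_one,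
      show ε⁻¹ + d = (1 + d * ε) * ε⁻¹ by field_simp, vb _ (by positivity)] at b1
    have hsub : ball (0 : Eu d) (ε⁻¹ - 1) ⊆ ball 0 ε⁻¹ := ball_subset_ball (by linarith)
    have b2 : volume (ball (0 : Eu d) ε⁻¹ \ ball 0 (ε⁻¹ - 1)) =
        ENNReal.ofReal (1 - (1 - ε) ^ d) * W := by
      rw [measure_sdiff hsub measurableSet_ball.nullMeasurableSet measure_ball_lt_top.ne,
        show ε⁻¹ - 1 = (1 - ε) * ε⁻¹ by field_simp, vb _ (by linarith only [hε2]),
        ENNReal.ofReal_sub _ (pow_nonneg (by linarith) _), ENNReal.sub_mul fun _ _ => hWt]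
      simp only [hW, ENNReal.ofReal_one, one_mul]
    rw [← setLIntegral_eq_of_support_subset (s := ball 0 ε⁻¹) fun x hx => z7
      (support_fderiv_subset ℝ fun e => hx (by simp only [e, en_pow _ hp0.le, norm_zero, ne_eq, hp0.ne', not_false_eq_true, Real.zero_rpow, ENNReal.ofReal_zero])), ← union_sdiff_cancel hsub,
      mul_add]
    refine (lintegral_union_le _ _ _).trans (add_le_add ?_ ?_)
    · refine le_trans ?_ (((lintegral_mono_set hsub).trans b1).trans_eq (by ring))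
      refine setLIntegral_mono' measurableSet_ball fun x hx => le_trans (le_of_eq ?_) (h3 x)
      rw [EventuallyEq.fderiv_eq (eventually_of_mem (isOpen_ball.mem_nhds hx) eqU)]
    · rw [mul_comm W, mul_assoc, ← b2, ← setLIntegral_const]
      refine lintegral_mono fun x => ?_
      rw [en_pow _ hp0.le, fderiv_mul (z1.differentiable (by simp) x)
        (hU.differentiable (by simp) x)]
      refine ENNReal.ofReal_le_ofReal (Real.rpow_le_rpow (norm_nonneg _)
        ((norm_add_le _ _).trans ?_) hp0.le)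
      rw [norm_smul, norm_smul, Real.norm_of_nonneg (z2 x).1]
      linarith only [mul_le_mul (z2 x).2 (h4 x).2 (norm_nonneg _) zero_le_one, mul_le_mul (h4 x).1 (z5 x) (norm_nonneg _) ((norm_nonneg _).trans (h4 x).1)]
  have e : W ^ p = W ^ (p - 1) * W := by
    nth_rewrite 3 [← ENNReal.rpow_one W]
    rw [← ENNReal.rpow_add _ _ hW0 hWt, sub_add_cancel]
  rw [← ENNReal.mul_le_mul_iff_right (a := W ^ p) (by simp [hW0, hWt])
    (ENNReal.rpow_ne_top_of_nonneg hp0.le hWt), mul_left_comm,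
    ← ENNReal.mul_rpow_of_nonneg _ _ hp0.le, e]
  refine le_trans (by gcongr) (key.trans (le_trans (mul_le_mul' (mul_le_mul_right
    (ENNReal.rpow_le_rpow (measure_mono sdiff_subset) (by linarith only [hp])) _) a2) (le_of_eq (by ring))))

/-- The bound `s` controls the cell problem. -/
theorem transfer {p s m : ℝ} (hp : 1 < p) (hg : Good (volume : Measure (Eu d)) p s)
    (hm : CellLow d p m) {u : Eu d → ℝ} (hu : Cls u) :
    ENNReal.ofReal m * (∫⁻ x in Q d, ‖u x‖ₑ) ^ p ≤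
      ENNReal.ofReal s * ∫⁻ x in Q d, ‖fderiv ℝ u x‖ₑ ^ p := by
  have hp0 : 0 < p := by linarith
  have c0 := hu.1.continuous
  have c1 := hu.1.continuous_fderiv (by simp)
  obtain ⟨M, hM⟩ := (isCompact_closedBall (0 : Eu d) d).exists_bound_of_continuousOn
    (c0.norm.add c1.norm).continuousOn
  have hb : ∀ κ x, ‖u (fold κ x)‖ ≤ M ∧ ‖fderiv ℝ u (fold κ x)‖ ≤ M := fun κ x => by
    have := (le_abs_self _).trans (hM _ (mem_closedBall_zero_iff.2 (fold_norm κ x)))
    simp only [Pi.add_apply] at this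
    constructor <;> linarith only [norm_nonneg (u (fold κ x)), norm_nonneg (fderiv ℝ u (fold κ x)), this]
  set κ : ℕ → ℝ := fun n => 1 - 1 / (n + 1) with hκ
  have kt : Tendsto κ atTop (𝓝 1) := by
    simpa only [hκ, one_div, sub_zero] using (tendsto_one_div_add_atTop_nhds_zero_nat (𝕜 := ℝ)).const_sub 1
  have fs : ∀ n, ContDiff ℝ ∞ (fold (d := d) (κ n)) ∧ LipschitzWith 1 (fold (d := d) (κ n)) :=
    fun n => fold_smooth (sub_nonneg.2 ((div_le_one (by positivity)).2 (by simp)))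
      (sub_lt_self _ (by positivity))
  have dct : ∀ (F : Eu d → ℝ≥0∞) (C : ℝ), Continuous F → (∀ κ x, F (fold κ x) ≤ ENNReal.ofReal C) →
      (∀ n, ∫⁻ x in Q d, F (fold (κ n) x) ≠ ⊤) ∧
      Tendsto (fun n => ∫⁻ x in Q d, F (fold (κ n) x)) atTop (𝓝 (∫⁻ x in Q d, F x)) := by
    intro F C hF h
    have hC : ∫⁻ _ in Q d, ENNReal.ofReal C ≠ ⊤ := by simp only [lintegral_const, MeasurableSet.univ, Measure.restrict_apply, univ_inter, volQ, mul_one, ne_eq, ENNReal.ofReal_ne_top, not_false_eq_true]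
    refine ⟨fun n => ne_top_of_le_ne_top hC (lintegral_mono (h _)),
      tendsto_lintegral_of_dominated_convergence _ (fun n => (hF.comp (fs n).2.continuous).measurable)
      (fun n => Eventually.of_forall (h _)) hC ?_⟩
    filter_upwards [ae_restrict_mem measQ] with x hx
    exact (hF.tendsto x).comp ((fold_tendsto fun i => Ioo_subset_Icc_self (hx i)).comp kt)
  obtain ⟨f1, t1⟩ := dct (fun x => ‖u x‖ₑ) M c0.enorm fun κ x => by
    rw [← ofReal_norm]; exact ENNReal.ofReal_le_ofReal (hb κ x).1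
  obtain ⟨f2, t2⟩ := dct (fun x => ‖fderiv ℝ u x‖ₑ ^ p) (M ^ p)
    (ENNReal.continuous_rpow_const.comp c1.enorm) fun κ x => by
      rw [en_pow _ hp0.le]
      exact ENNReal.ofReal_le_ofReal (Real.rpow_le_rpow (norm_nonneg _) (hb κ x).2 hp0.le)
  have pw := fun {a : ℝ≥0∞} => (ENNReal.continuous_rpow_const (y := p)).tendsto a
  refine le_of_tendsto_of_tendsto (ENNReal.Tendsto.const_mul (pw.comp t1) (by simp only [ne_eq, ENNReal.rpow_eq_zero_iff, not_or, not_and, not_lt, ENNReal.ofReal_ne_top, not_false_eq_true, or_true]))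
    (ENNReal.Tendsto.const_mul t2 (by simp)) ?_
  filter_upwards [((fold_tendsto (x := 0) (by simp only [PiLp.zero_apply, mem_Icc, Std.le_refl, zero_le_one, and_self, implies_true])).comp kt).eventually
    (eventually_eventually_nhds.2 hu.2)] with n hn
  have key := fun ε => periodic_bound (M := M) (ε := ε) hp hg hm (hu.1.comp (fs n).1)
    (fun x hx => notMem_tsupport_iff_eventuallyEq.2 (((fs n).2.continuous.tendsto x).eventually
      (p := fun y => u y = 0) (by rwa [fold_lat _ hx]))) (fun k t => by simp [fold_cell])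
    (G := fun x => ‖fderiv ℝ u (fold (κ n) x)‖ₑ ^ p) (fun k t => by simp [fold_cell])
    (fun x => ENNReal.rpow_le_rpow (enorm_le_iff_norm_le.2 (comp_le hu.1 (fs n).1 (fs n).2 x)) hp0.le)
    fun x => ⟨(hb _ x).1, (comp_le hu.1 (fs n).1 (fs n).2 x).trans (hb _ x).2⟩
  have lim : ∀ (f : ℝ → ℝ) (a : ℝ), Continuous f → f 0 = a →
      Tendsto (fun ε => ENNReal.ofReal (f ε)) (𝓝[>] 0) (𝓝 (ENNReal.ofReal a)) := fun f a hf e =>
    (ENNReal.continuous_ofReal.tendsto a).comp ((hf.tendsto' _ _ e).mono_left nhdsWithin_le_nhds)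
  have l1 := ENNReal.Tendsto.const_mul (a := ENNReal.ofReal m) (pw.comp (ENNReal.Tendsto.mul_const
    (lim (fun ε => (1 - (1 + d) * ε) ^ d) 1 (by fun_prop) (by simp)) (Or.inr (f1 n)))) (by simp only [ENNReal.ofReal_one, one_mul, ne_eq, ENNReal.rpow_eq_zero_iff, not_or, not_and, not_lt, ENNReal.ofReal_ne_top, not_false_eq_true, or_true])
  have l2 := ENNReal.Tendsto.const_mul (a := ENNReal.ofReal s) ((ENNReal.Tendsto.mul_const
    (lim (fun ε => (1 + d * ε) ^ d) 1 (by fun_prop) (by simp)) (Or.inr (f2 n))).add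
    (ENNReal.Tendsto.const_mul (a := ENNReal.ofReal ((9 * M) ^ p))
      (lim (fun ε => 1 - (1 - ε) ^ d) 0 (by fun_prop) (by simp)) (by simp))) (by simp)
  simp only [ENNReal.ofReal_one, one_mul, ENNReal.ofReal_zero, mul_zero, add_zero] at l1 l2
  refine le_of_tendsto_of_tendsto l1 l2 ?_
  filter_upwards [Ioo_mem_nhdsGT (show (0 : ℝ) < 1 / (1 + d) by positivity)] with ε hε
  exact key ε hε.1 (by rw [mul_comm]; exact (lt_div_iff₀ (by positivity)).1 hε.2)

end Pool.Agent.MP_9e511b_an.H18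

end

section

open MeasureTheory Metric Set Module Filter Topology
open scoped ENNReal ContDiff

namespace Pool.Agent.MP_9e511b_an.H18

theorem strong {x y p : ℝ} (hx : 0 ≤ x) (hy : 0 ≤ y) (hp : 2 ≤ p) :
    max (x - y) 0 ^ p + p * (y ^ (p - 1) * x) ≤ x ^ p + (p - 1) * y ^ p := by
  have hp0 : 0 < p := by linarith
  rcases hy.eq_or_lt with rfl | hy
  · simp [hx, hp0.ne', show p - 1 ≠ 0 by linarith]
  obtain ⟨t, rfl⟩ : ∃ t, x = y * t := ⟨x / y, by field_simp⟩
  have ht : 0 ≤ t := nonneg_of_mul_nonneg_right hx hy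
  have key : max (t - 1) 0 ^ p + p * t ≤ t ^ p + (p - 1) := by
    rcases le_total t 1 with h | h
    · have := bern (t := t) (p := p) (by linarith)
      rw [max_eq_right (by linarith), Real.zero_rpow hp0.ne']
      rw [abs_of_nonneg ht] at this
      linarith
    · obtain ⟨s, rfl⟩ : ∃ s, t = 1 + s := ⟨t - 1, by ring⟩
      have hs : 0 ≤ s := by linarith
      have h1 := one_add_mul_self_le_rpow_one_add (s := s) (by linarith) (p := p - 1) (by linarith)
      have h2 := Real.add_rpow_le_rpow_add zero_le_one hs (p := p - 1) (by linarith)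
      have h3 := mul_le_mul_of_nonneg_left h2 hs
      have e : ∀ a : ℝ, 0 ≤ a → a ^ p = a ^ (p - 1) * a := fun a ha => by
        rw [← Real.rpow_add_one' ha (by linarith), sub_add_cancel]
      rw [add_sub_cancel_left, max_eq_left hs, e s hs, e (1 + s) (by linarith)]
      rw [Real.one_rpow] at h3
      linarith
  have := mul_le_mul_of_nonneg_left key (Real.rpow_nonneg hy.le p)
  rw [show y * t - y = y * (t - 1) by ring, ← mul_zero y, ← mul_max_of_nonneg _ _ hy.le,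
    Real.mul_rpow hy.le (le_max_right _ _), Real.mul_rpow hy.le ht, Real.rpow_sub_one hy.ne']
  refine le_trans (le_of_eq ?_) (this.trans (le_of_eq (by ring)))
  field_simp

theorem taylor (P : ℝ) : ∃ C : ℝ, 0 ≤ C ∧ ∀ p, 1 ≤ p → p ≤ P → ∀ t a : ℝ, 0 ≤ t → 1 / 2 ≤ a → a ≤ 2 →
    t ^ p + p * a ^ p ≤ a ^ p + p * (a ^ (p - 1) * t) + C * (|t - a| ^ 2 + |t - a| ^ p) := by
  have pol : ∀ k : ℕ, ∃ C : ℝ, 0 ≤ C ∧ ∀ t : ℝ, 0 ≤ t → t ≤ 2 →
      t ^ k ≤ 1 + k * (t - 1) + C * (t - 1) ^ 2 := by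
    intro k
    induction k with
    | zero => exact ⟨0, le_rfl, by simp⟩
    | succ k ih =>
      obtain ⟨C, h0, h⟩ := ih
      refine ⟨2 * C + k, by positivity, fun t h1 h2 => ?_⟩
      have := mul_le_mul_of_nonneg_left (h t h1 h2) h1
      have := mul_le_mul_of_nonneg_right h2 (by positivity : 0 ≤ C * (t - 1) ^ 2)
      push_cast
      rw [pow_succ']
      linarith
  obtain ⟨k, hk⟩ := exists_nat_gt (max P 1)
  obtain ⟨C, h0, hC⟩ := pol k
  have h2P : (0 : ℝ) < 2 ^ P := by positivity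
  refine ⟨2 ^ P * (4 * C + 1), by positivity, fun p h1 hP t a ht ha ha2 => ?_⟩
  have ha0 : 0 < a := by linarith only [ha]
  have h2 : (2 : ℝ) ^ p ≤ 2 ^ P := Real.rpow_le_rpow_of_exponent_le one_le_two hP
  obtain ⟨t, rfl⟩ : ∃ s, t = a * s := ⟨t / a, by field_simp⟩
  replace ht : 0 ≤ t := nonneg_of_mul_nonneg_right ht ha0
  have key : t ^ p + p ≤ 1 + p * t + (C * (t - 1) ^ 2 + 2 ^ P * |t - 1| ^ p) := by
    rcases le_total t 2 with h | h
    · have hk1 : (0 : ℝ) < k - 1 := by linarith only [le_max_right P 1, hk]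
      have hl : (p - 1) / (k - 1) ≤ 1 := (div_le_one hk1).2 (by linarith only [le_max_left P 1, hk, hP])
      have hl0 : 0 ≤ (p - 1) / (k - 1) := div_nonneg (by linarith only [h1]) hk1.le
      have := Real.geom_mean_le_arith_mean2_weighted (sub_nonneg.2 hl) hl0 ht (pow_nonneg ht k)
        (sub_add_cancel _ _)
      rw [← Real.rpow_natCast, ← Real.rpow_mul ht, ← Real.rpow_add' ht, Real.rpow_natCast,
        show 1 - (p - 1) / (k - 1) + k * ((p - 1) / (k - 1)) = p by field_simp; ring] at this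
      · have h3 := mul_le_mul_of_nonneg_left (hC t ht h) hl0
        have h4 := mul_le_of_le_one_left (by positivity : 0 ≤ C * (t - 1) ^ 2) hl
        have h5 : (p - 1) / (k - 1) * (k - 1) * (t - 1) = (p - 1) * (t - 1) := by field_simp
        have h6 : 0 ≤ 2 ^ P * |t - 1| ^ p := by positivity
        linarith
      · rw [show 1 - (p - 1) / (k - 1) + k * ((p - 1) / (k - 1)) = p by field_simp; ring]
        linarith only [h1]
    · have h3 : t ^ p ≤ 2 ^ P * |t - 1| ^ p := by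
        refine le_trans ?_ (mul_le_mul_of_nonneg_right h2 (by positivity))
        rw [← Real.mul_rpow zero_le_two (abs_nonneg _)]
        exact Real.rpow_le_rpow ht (by linarith only [le_abs_self (t - 1), h]) (by linarith only [h1])
      have : 0 ≤ C * (t - 1) ^ 2 := by positivity
      nlinarith only [h1, h, h3, this]
  have h3 := mul_le_mul_of_nonneg_left key (Real.rpow_nonneg ha0.le p)
  have h4 : a ^ p ≤ 2 ^ P := (Real.rpow_le_rpow ha0.le ha2 (by linarith only [h1])).trans h2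
  have h5 : a ^ p * (C * (t - 1) ^ 2) ≤ 2 ^ P * (C * (t - 1) ^ 2) := by gcongr
  have h6 : (1 : ℝ) * (2 ^ P * (C * (t - 1) ^ 2)) ≤ 4 * a ^ 2 * (2 ^ P * (C * (t - 1) ^ 2)) :=
    mul_le_mul_of_nonneg_right (by nlinarith only [ha]) (by positivity)
  have h7 : 0 ≤ 2 ^ P * (a * (t - 1)) ^ 2 + 2 ^ P * (4 * C) * (a ^ p * |t - 1| ^ p) := by positivity
  rw [show a * t - a = a * (t - 1) by ring, sq_abs, abs_mul, abs_of_pos ha0, Real.mul_rpow ha0.le ht,
    Real.mul_rpow ha0.le (abs_nonneg _), Real.rpow_sub_one ha0.ne',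
    show a ^ p / a * (a * t) = a ^ p * t by field_simp]
  linarith only [h3, h5, h6, h7]

theorem lyap {X : Type*} [MeasurableSpace X] {ν : Measure X} (h1 : ν univ = 1) {f : X → ℝ≥0∞}
    (hf : Measurable f) {q p : ℝ} (hq : 0 < q) (hp : q < p) {σ : ℝ≥0∞}
    (h : ∫⁻ x, f x ^ p ∂ν ≤ σ ^ p) : ∫⁻ x, f x ^ q ∂ν ≤ σ ^ q := by
  have h2 : 1 < p / q := (one_lt_div hq).2 hp
  have := jensen ν (hf.pow_const q).aemeasurable h2
  simp only [← ENNReal.rpow_mul, mul_div_cancel₀ _ hq.ne', h1, ENNReal.one_rpow, mul_one] at this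
  rw [← ENNReal.rpow_le_rpow_iff (z := p / q) (by linarith), ← ENNReal.rpow_mul,
    mul_div_cancel₀ _ hq.ne']
  exact this.trans h

theorem seg {E : Type*} [NormedAddCommGroup E] [NormedSpace ℝ E] [FiniteDimensional ℝ E]
    [MeasurableSpace E] [BorelSpace E] (μ : Measure E) [μ.IsAddHaarMeasure] {K : Set E}
    (hK : μ K = 1) {G : E → ℝ≥0∞} (hG : Measurable G) :
    ∫⁻ y in K, ∫⁻ x in K, (∫⁻ t in Ioc (0 : ℝ) 1, G (x + t • (y - x))) ∂μ ∂μ ≤
      ENNReal.ofReal (2 ^ finrank ℝ E) * ∫⁻ z, G z ∂μ := by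
  have a : ∀ t : ℝ, 1 / 2 ≤ t → ∫⁻ x in K, ∫⁻ y in K, G (x + t • (y - x)) ∂μ ∂μ ≤
      ENNReal.ofReal (2 ^ finrank ℝ E) * ∫⁻ z, G z ∂μ := fun t ht => by
    refine (lintegral_mono fun x => (setLIntegral_le_lintegral _ _).trans
      (lintegral_homothety μ G hG x (by linarith)).le).trans ?_
    rw [setLIntegral_const, hK, mul_one, ← inv_pow]
    gcongr
    exact inv_le_of_inv_le₀ two_pos (by linarith)
  rw [lintegral_congr fun y => lintegral_lintegral_swap (by fun_prop),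
    lintegral_lintegral_swap (Measurable.lintegral_prod_right'
      (f := fun w : (E × ℝ) × E => G (w.2 + w.1.2 • (w.1.1 - w.2))) (by fun_prop)).aemeasurable]
  refine (lintegral_mono (g := fun _ => ENNReal.ofReal (2 ^ finrank ℝ E) * ∫⁻ z, G z ∂μ)
    fun t => ?_).trans_eq (by rw [setLIntegral_const]; simp only [Nat.ofNat_nonneg, ENNReal.ofReal_pow, ENNReal.ofReal_ofNat, Real.volume_Ioc, sub_zero, ENNReal.ofReal_one, mul_one])
  rcases le_total (1 / 2) t with h | h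
  · rw [lintegral_lintegral_swap (by fun_prop)]
    exact a t h
  · refine le_trans (le_of_eq ?_) (a (1 - t) (by linarith only [h]))
    congr! 5 with y x
    module

variable {d : ℕ}

/-- The open orthant. -/
def Ort (d : ℕ) : Set (Eu d) := {x | ∀ i, 0 < x i}

/-- The part of the unit ball in the orthant. -/
def Bo (d : ℕ) : Set (Eu d) := ball 0 1 ∩ Ort d

theorem isOpen_ort : IsOpen (Ort d) := by
  simp only [Ort, ofPred_forall]
  exact isOpen_iInter_of_finite fun i => isOpen_lt continuous_const (by fun_prop)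

theorem ort_cone (t : ℝ) (ht : 0 < t) (x : Eu d) : t • x ∈ Ort d ↔ x ∈ Ort d := by
  simp only [Ort, mem_ofPred_eq, PiLp.smul_apply, smul_eq_mul, ht, mul_pos_iff_of_pos_left]

theorem measB : MeasurableSet (Bo d) := measurableSet_ball.inter isOpen_ort.measurableSet

theorem Bo_sub : Bo d ⊆ Q d := fun x hx i => ⟨hx.2 i, ((le_abs_self _).trans
  (PiLp.norm_apply_le x i)).trans_lt (mem_ball_zero_iff.1 hx.1)⟩

theorem volB : volume (Bo d) ≠ 0 ∧ volume (Bo d) ≤ 1 := by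
  refine ⟨((isOpen_ball.inter isOpen_ort).measure_pos _ ?_).ne', volQ ▸ measure_mono Bo_sub⟩
  have h : (0 : ℝ) < d + 1 := by positivity
  refine ⟨(d + 1 : ℝ)⁻¹ • WithLp.toLp 2 fun _ => 1, ?_, fun i => by simpa only [PiLp.smul_apply, smul_eq_mul, mul_one, inv_pos] using h⟩
  rw [mem_ball_zero_iff, norm_smul, norm_inv, Real.norm_of_nonneg h.le, inv_mul_lt_one₀ h]
  exact (norm_le_of fun i => by simp).trans_lt (lt_add_one _)

theorem Q_pos (hd : 2 ≤ d) {x : Eu d} (hx : x ∈ Q d) : 0 < ‖x‖ :=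
  (hx ⟨0, by omega⟩).1.trans_le ((le_abs_self _).trans (PiLp.norm_apply_le x _))

theorem nontriv (hd : 2 ≤ d) : Nontrivial (Eu d) :=
  haveI : Nonempty (Fin d) := ⟨⟨0, by omega⟩⟩
  inferInstance

theorem inv_int (hd : 2 ≤ d) : ∫⁻ x in Q d, (Bo d).indicator (fun x => ENNReal.ofReal ‖x‖⁻¹) x ≤
    ENNReal.ofReal 2 := by
  have := nontriv hd
  have h2 : (2 : ℝ) ≤ d := by exact_mod_cast hd
  have := ray_norm volume (isOpen_ort (d := d)).measurableSet ort_cone (s := d - 1) (by linarith only [h2])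
    (by simp only [finrank_euclideanSpace, Fintype.card_fin, sub_lt_self_iff, zero_lt_one])
  rw [finrank_euclideanSpace_fin, show (d : ℝ) - 1 - d = -1 by ring] at this
  simp only [Real.rpow_neg_one] at this
  refine (setLIntegral_le_lintegral _ _).trans ((lintegral_indicator measB _).trans_le
    (this.trans ((mul_le_mul' (ENNReal.ofReal_le_ofReal ?_) volB.2).trans_eq (mul_one _))))
  rw [div_le_iff₀ (by linarith only [h2])]
  linarith

/-- The norm of the gradient of the fundamental solution, cut off outside the unit ball. -/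
noncomputable def bb (α : ℝ) : Eu d → ℝ := (Bo d).indicator fun z => α * ‖z‖ ^ (α - 1)

theorem bb_nonneg {α : ℝ} (h : 0 ≤ α) (z : Eu d) : 0 ≤ bb α z :=
  indicator_nonneg (fun _ _ => by positivity) z

theorem bb_meas (α : ℝ) : Measurable (bb (d := d) α) :=
  ((measurable_norm.pow_const _).const_mul _).indicator measB

theorem bb_int (hd : 2 ≤ d) {p α : ℝ} (h0 : 0 < α) (h1 : α ≤ 1) (hp : 0 < p)
    (hα : α * (p - 1) = p - d) : ∫⁻ z in Q d, ENNReal.ofReal (bb α z ^ p) ≤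
      ENNReal.ofReal (d * α ^ (p - 1)) * volume (Bo d) := by
  have := nontriv hd
  have h2 : (2 : ℝ) ≤ d := by exact_mod_cast hd
  have := ray_norm volume (isOpen_ort (d := d)).measurableSet ort_cone h0 (by simp only [finrank_euclideanSpace, Fintype.card_fin]; linarith only [h1, h2])
  rw [finrank_euclideanSpace_fin] at this
  rw [show d * α ^ (p - 1) = α ^ p * (d / α) by rw [Real.rpow_sub_one h0.ne']; ring,
    ENNReal.ofReal_mul (by positivity), mul_assoc]
  refine le_trans ?_ (mul_le_mul_right this _)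
  rw [← lintegral_const_mul' _ _ ENNReal.ofReal_ne_top, ← Bo, ← lintegral_indicator measB]
  refine (setLIntegral_mono' measQ fun z hz => ?_).trans (setLIntegral_le_lintegral (Q d) _)
  by_cases h : z ∈ Bo d
  · rw [bb, indicator_of_mem h, indicator_of_mem h, Real.mul_rpow h0.le (by positivity),
      ← Real.rpow_mul (norm_nonneg z), ENNReal.ofReal_mul (by positivity),
      show (α - 1) * p = α - d by linarith only [hα]]
  · simp [bb, h, hp.ne']

theorem exists_u0 (hd : 2 ≤ d) {p α : ℝ} (h0 : 0 < α) (h1 : α ≤ 1 / 4) (hp : 1 ≤ p)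
    (hα : α * (p - 1) = p - d) : ∃ u : Eu d → ℝ, Cls u ∧
      ∫⁻ x in Q d, ‖fderiv ℝ u x‖ₑ ^ p ≤ ENNReal.ofReal (d * α ^ (p - 1)) * volume (Bo d) ∧
      1 ≤ (∫⁻ x in Q d, ‖u x‖ₑ ^ p) + ENNReal.ofReal (6 * p * α) := by
  have hp0 : 0 < p := by linarith only [hp]
  obtain ⟨H, s1, s2, s3, s4⟩ := exists_moll (volume : Measure ℝ) zero_le_one h0
    (g := fun s => max 0 (min s (1 - 2 * α) - 2 * α)) fun x y => by
      have := dist_nonneg (x := x) (y := y)
      rw [one_mul, ← max_add_add_right, sub_add_eq_add_sub, ← min_add_add_right]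
      exact max_le_max (by linarith only [this]) (sub_le_sub_right (min_le_min
        (by rw [Real.dist_eq]; linarith only [le_abs_self (x - y)]) (by linarith only [this])) _)
  have hc : Continuous fun z : Eu d => ‖z‖ ^ α := continuous_norm.rpow_const fun _ => Or.inr h0.le
  have ev : ∀ᶠ z : Eu d in 𝓝 0, H (‖z‖ ^ α) = 0 := by
    filter_upwards [hc.continuousAt.eventually_lt continuousAt_const
      (show ‖(0 : Eu d)‖ ^ α < α by simpa [h0.ne'] using h0)] with z hz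
    exact (s4 _ _ fun y hy => max_le le_rfl (sub_nonpos.2 (min_le_of_left_le
      (by linarith only [(abs_lt.1 (mem_ball_iff_norm.1 hy)).2, hz])))).antisymm
      (s3 _ _ fun y _ => le_max_left _ _)
  have sm : ContDiff ℝ ∞ fun z : Eu d => H (‖z‖ ^ α) := contDiff_iff_contDiffAt.2 fun z => by
    by_cases hz : z = 0
    · exact hz ▸ contDiffAt_const.congr_of_eventuallyEq ev
    · exact s1.contDiffAt.comp z ((contDiffAt_norm ℝ hz).rpow_const_of_ne (norm_ne_zero_iff.2 hz))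
  refine ⟨_, ⟨sm, ev⟩, le_trans (setLIntegral_mono' measQ fun z hz => ?_)
    (bb_int hd h0 (by linarith only [h0, h1]) hp0 hα), ?_⟩
  · have hz0 := Q_pos hd hz
    have d1 := ((contDiffAt_norm ℝ (n := 1) (norm_pos_iff.1 hz0)).differentiableAt one_ne_zero
      ).hasFDerivAt.rpow_const (p := α) (Or.inl hz0.ne')
    have d2 := (s1.differentiable (by simp) (‖z‖ ^ α)).hasFDerivAt.comp z d1
    rw [en_pow _ hp0.le, (show HasFDerivAt (fun z : Eu d => H (‖z‖ ^ α)) _ z from d2).fderiv]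
    refine ENNReal.ofReal_le_ofReal (Real.rpow_le_rpow (norm_nonneg _) ?_ hp0.le)
    by_cases h : ‖z‖ < 1
    · rw [bb, indicator_of_mem (show z ∈ Bo d from ⟨mem_ball_zero_iff.2 h, fun i => (hz i).1⟩)]
      refine (ContinuousLinearMap.opNorm_comp_le _ _).trans
        ((mul_le_of_le_one_left (norm_nonneg _) (s2 _)).trans ?_)
      rw [norm_smul, Real.norm_of_nonneg (by positivity)]
      exact mul_le_of_le_one_right (by positivity)
        (by simpa only [NNReal.coe_one] using norm_fderiv_le_of_lipschitz ℝ (x₀ := z) lipschitzWith_one_norm)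
    · have : H =ᶠ[𝓝 (‖z‖ ^ α)] fun _ => 1 - 4 * α := by
        filter_upwards [Ioi_mem_nhds (show 1 - α < ‖z‖ ^ α by
          linarith only [Real.one_le_rpow (not_lt.1 h) h0.le, h0])] with s hs
        exact (s4 _ _ fun y _ => max_le (by linarith) (by linarith only [min_le_right y (1 - 2 * α)])
          ).antisymm (s3 _ _ fun y hy => le_max_of_le_right (by
            rw [min_eq_right (by linarith only [(abs_lt.1 (mem_ball_iff_norm.1 hy)).1, mem_Ioi.1 hs])]
            linarith only []))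
      rw [this.fderiv_eq]
      simpa only [fderiv_fun_const, Pi.zero_apply, ContinuousLinearMap.comp_smulₛₗ, Real.ringHom_apply, ContinuousLinearMap.zero_comp, smul_zero, norm_zero, ge_iff_le] using bb_nonneg h0.le z
  calc (1 : ℝ≥0∞) = ∫⁻ _ in Q d, 1 := by simp only [lintegral_const, MeasurableSet.univ, Measure.restrict_apply, univ_inter, volQ, mul_one]
    _ ≤ ∫⁻ z in Q d, (‖H (‖z‖ ^ α)‖ₑ ^ p + (ENNReal.ofReal (4 * p * α) + ENNReal.ofReal (p * α) *
        (Bo d).indicator (fun x => ENNReal.ofReal ‖x‖⁻¹) z)) := by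
      refine setLIntegral_mono' measQ fun z hz => ?_
      have hz0 := Q_pos hd hz
      have b1 := bern (t := H (‖z‖ ^ α)) hp
      have b2 : min (‖z‖ ^ α) 1 - 4 * α ≤ H (‖z‖ ^ α) := s3 _ _ fun y hy => le_max_of_le_right (by
        have := (abs_lt.1 (mem_ball_iff_norm.1 hy)).1
        have : min (‖z‖ ^ α) 1 - 2 * α ≤ min y (1 - 2 * α) := le_min
          (by linarith only [min_le_left (‖z‖ ^ α) 1, h0, this]) (by linarith only [min_le_right (‖z‖ ^ α) 1])
        linarith only [this])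
      have b3 := mul_le_mul_of_nonneg_left b2 hp0.le
      rw [en_pow _ hp0.le, Real.norm_eq_abs, ← add_assoc,
        ← ENNReal.ofReal_add (by positivity) (by positivity)]
      by_cases h : ‖z‖ < 1
      · rw [indicator_of_mem (show z ∈ Bo d from ⟨mem_ball_zero_iff.2 h, fun i => (hz i).1⟩),
          ← ENNReal.ofReal_mul (by positivity), ← ENNReal.ofReal_add (by positivity) (by positivity),
          ENNReal.one_le_ofReal]
        have b4 : 1 - α * ‖z‖⁻¹ ≤ ‖z‖ ^ α := by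
          rw [Real.rpow_def_of_pos hz0]
          linarith only [Real.add_one_le_exp (Real.log ‖z‖ * α), mul_le_mul_of_nonneg_right (Real.one_sub_inv_le_log_of_pos hz0) h0.le, h0]
        rw [min_eq_left (Real.rpow_le_one hz0.le h.le h0.le)] at b3
        linarith only [mul_le_mul_of_nonneg_left b4 hp0.le, b1, b3]
      · rw [min_eq_right (Real.one_le_rpow (not_lt.1 h) h0.le)] at b3
        exact (ENNReal.one_le_ofReal.2 (by linarith only [b1, b3])).trans le_self_add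
    _ ≤ _ := by
      rw [lintegral_add_left (sm.continuous.enorm.measurable.pow_const _),
        lintegral_add_left measurable_const, setLIntegral_const, volQ, mul_one,
        lintegral_const_mul' _ _ ENNReal.ofReal_ne_top]
      rw [show 6 * p * α = 4 * p * α + p * α * 2 by ring,
        ENNReal.ofReal_add (by positivity) (by positivity), ENNReal.ofReal_mul (p := p * α)
        (by positivity)]
      gcongr
      exact inv_int hd

/-- The part of the gradient exceeding the fundamental solution. -/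
noncomputable def exc (α : ℝ) (u : Eu d → ℝ) (z : Eu d) : ℝ≥0∞ :=
  ENNReal.ofReal (max (‖fderiv ℝ u z‖ - bb α z) 0)

theorem exc_meas (α : ℝ) {u : Eu d → ℝ} (hu : Cls u) : Measurable (exc α u) :=
  (((hu.1.continuous_fderiv (by simp)).norm.measurable.sub (bb_meas α)).max
    measurable_const).ennreal_ofReal

theorem deficit (hd : 2 ≤ d) {p α : ℝ} (h0 : 0 < α) (h1 : α ≤ 1) (hp : 2 ≤ p)
    (hα : α * (p - 1) = p - d) {u : Eu d → ℝ} (hu : Cls u) :
    (∫⁻ z in Q d, exc α u z ^ p) + ENNReal.ofReal (p * (d * α ^ (p - 1))) * ∫⁻ z in Bo d, ‖u z‖ₑ ≤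
      (∫⁻ z in Q d, ‖fderiv ℝ u z‖ₑ ^ p) +
        ENNReal.ofReal (p - 1) * (ENNReal.ofReal (d * α ^ (p - 1)) * volume (Bo d)) := by
  have := nontriv hd
  have hp0 : 0 < p := by linarith only [hp]
  have c1 : ContDiff ℝ 1 u := hu.1.of_le (by simp)
  have r := ray_one volume (isOpen_ort (d := d)).measurableSet ort_cone c1 hu.2.self_of_nhds
  rw [finrank_euclideanSpace_fin, ← Bo] at r
  rw [show p * (d * α ^ (p - 1)) = p * α ^ (p - 1) * d by ring, ENNReal.ofReal_mul (by positivity),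
    mul_assoc]
  refine (add_le_add_right (mul_le_mul_right r _) _).trans
    (le_trans ?_ (add_le_add_right (mul_le_mul_right (bb_int hd h0 h1 hp0 hα) _) _))
  rw [← lintegral_const_mul' _ _ ENNReal.ofReal_ne_top,
    ← lintegral_const_mul' _ _ ENNReal.ofReal_ne_top, ← inter_eq_left.2 Bo_sub,
    ← Measure.restrict_restrict measB, ← lintegral_indicator measB,
    ← lintegral_add_left ((exc_meas α hu).pow_const _),
    ← lintegral_add_left ((meas_grad c1).pow_const _)]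
  refine lintegral_mono fun z => ?_
  have b0 := bb_nonneg h0.le z
  have e : (Bo d).indicator (fun z => ENNReal.ofReal (p * α ^ (p - 1)) * (ENNReal.ofReal
      (‖z‖ ^ (1 - (d : ℝ))) * ‖fderiv ℝ u z‖ₑ)) z =
      ENNReal.ofReal (p * (bb α z ^ (p - 1) * ‖fderiv ℝ u z‖)) := by
    by_cases h : z ∈ Bo d
    · rw [bb, indicator_of_mem h, indicator_of_mem h, Real.mul_rpow h0.le (by positivity),
        ← Real.rpow_mul (norm_nonneg z), show (α - 1) * (p - 1) = 1 - d by linarith only [hα], ← ofReal_norm,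
        ← ENNReal.ofReal_mul (by positivity), ← ENNReal.ofReal_mul (by positivity)]
      congr 1
      ring
    · simp only [h, not_false_eq_true, indicator_of_notMem, bb, ne_eq, show p - 1 ≠ 0 by linarith, Real.zero_rpow, zero_mul, mul_zero, ENNReal.ofReal_zero]
  rw [e, exc, en_pow _ hp0.le, ENNReal.ofReal_rpow_of_nonneg (le_max_right _ _) hp0.le,
    ← ENNReal.ofReal_mul (by linarith only [hp]), ← ENNReal.ofReal_add (by positivity) (by positivity),
    ← ENNReal.ofReal_add (by positivity) (mul_nonneg (by linarith) (by positivity))]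
  exact ENNReal.ofReal_le_ofReal (strong (norm_nonneg _) b0 hp)

theorem norm_mono {x y : Eu d} (h : ∀ i, |x i| ≤ |y i|) : ‖x‖ ≤ ‖y‖ := by
  rw [EuclideanSpace.norm_eq, EuclideanSpace.norm_eq]
  gcongr with i
  exact h i

theorem two_point (hd : 2 ≤ d) {p P α : ℝ} (h0 : 0 < α) (hp : 1 < p) (hP : p ≤ P) {u : Eu d → ℝ}
    (hu : Cls u) {x y : Eu d} (hx : x ∈ Q d) (hy : ∀ i, y i ∈ Ioo (1 / 2 : ℝ) 1) :
    ‖u x - u y‖ₑ ^ p ≤ ENNReal.ofReal ((2 * d) ^ p) * (ENNReal.ofReal ((4 * d * P * α) ^ p) *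
      (1 + (Bo d).indicator (fun x => ENNReal.ofReal ‖x‖⁻¹) x) +
      ∫⁻ t in Ioc (0 : ℝ) 1, (Q d).indicator (fun z => exc α u z ^ p) (x + t • (y - x))) := by
  have hp0 : 0 < p := by linarith only [hp]
  have hP1 : 1 < P := by linarith only [hp, hP]
  have hd2 : (2 : ℝ) ≤ d := by exact_mod_cast hd
  have hyQ : y ∈ Q d := fun i => ⟨by linarith only [(hy i).1], (hy i).2⟩
  have hx0 := Q_pos hd hx
  have hy0 : 1 / 2 ≤ ‖y‖ :=
    (hy ⟨0, by omega⟩).1.le.trans ((le_abs_self _).trans (PiLp.norm_apply_le y _))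
  have hxd : ‖x‖ ≤ d := norm_le_of fun i => abs_le.2 ⟨by linarith only [(hx i).1], (hx i).2.le⟩
  have hm : Measurable fun t : ℝ => exc α u (x + t • (y - x)) := (exc_meas α hu).comp (by fun_prop)
  have hz : ∀ t ∈ Ioc (0 : ℝ) 1, x + t • (y - x) ∈ Q d ∧
      bb α (x + t • (y - x)) ≤ 4 * d * α * ‖x‖ ^ (-P⁻¹) * t ^ (-(1 - P⁻¹)) := by
    intro t ht
    have e : ∀ i, (x + t • (y - x)) i = (1 - t) * x i + t * y i := fun i => by simp only [PiLp.add_apply, PiLp.smul_apply, PiLp.sub_apply, smul_eq_mul]; ring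
    have a1 : ∀ i, 0 ≤ (1 - t) * x i := fun i => mul_nonneg (sub_nonneg.2 ht.2) (hx i).1.le
    have a2 : ∀ i, 0 < t * y i := fun i => mul_pos ht.1 (hyQ i).1
    have hQ : x + t • (y - x) ∈ Q d := fun i => by
      rw [e]
      refine ⟨by linarith only [a1 i, a2 i], ?_⟩
      linarith only [mul_le_mul_of_nonneg_left (hx i).2.le (sub_nonneg.2 ht.2), mul_lt_mul_of_pos_left (hy i).2 ht.1]
    refine ⟨hQ, ?_⟩
    have b1 := norm_mono (x := t • y) (y := x + t • (y - x)) fun i => by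
      rw [e, PiLp.smul_apply, smul_eq_mul, abs_of_pos (a2 i)]
      exact le_trans (by linarith only [a1 i]) (le_abs_self _)
    have b2 := norm_mono (x := (1 - t) • x) (y := x + t • (y - x)) fun i => by
      rw [e, PiLp.smul_apply, smul_eq_mul, abs_of_nonneg (a1 i)]
      exact le_trans (by linarith only [a2 i]) (le_abs_self _)
    have hz0 := Q_pos hd hQ
    have ht0 := ht.1
    generalize x + t • (y - x) = z at *
    rw [norm_smul, Real.norm_of_nonneg ht0.le] at b1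
    rw [norm_smul, Real.norm_of_nonneg (sub_nonneg.2 ht.2)] at b2
    have b0 := mul_le_mul_of_nonneg_left hy0 ht0.le
    have b6 := mul_le_mul_of_nonneg_right hd2 hz0.le
    have b3 : t ≤ 4 * d * ‖z‖ := by linarith only [b1, hz0, b0, b6]
    have b4 : ‖x‖ ≤ 4 * d * ‖z‖ := by
      rcases le_total t (1 / 2) with h | h
      · linarith only [mul_le_mul_of_nonneg_right h hx0.le, b2, hz0, b6]
      · linarith only [mul_le_mul_of_nonneg_left (show 1 ≤ 4 * ‖z‖ by linarith only [b1, b0, h]) (Nat.cast_nonneg d), hxd]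
    have hθ : 0 ≤ 1 - P⁻¹ := sub_nonneg.2 (inv_le_one_of_one_le₀ hP1.le)
    have b5 := mul_le_mul (Real.rpow_le_rpow hx0.le b4 (by positivity : 0 ≤ P⁻¹))
      (Real.rpow_le_rpow ht0.le b3 hθ) (by positivity) (by positivity)
    rw [← Real.rpow_add (by positivity), add_sub_cancel, Real.rpow_one] at b5
    by_cases h : z ∈ Bo d
    · rw [bb, indicator_of_mem h, Real.rpow_sub_one hz0.ne', Real.rpow_neg hx0.le,
        Real.rpow_neg ht0.le, mul_assoc, ← mul_inv, ← div_eq_mul_inv, ← mul_div_assoc,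
        div_le_div_iff₀ hz0 (by positivity)]
      have := mul_le_mul (Real.rpow_le_one hz0.le (mem_ball_zero_iff.1 h.1).le h0.le) b5
        (by positivity) zero_le_one
      linarith only [mul_le_mul_of_nonneg_left this h0.le]
    · rw [bb, indicator_of_notMem h]; positivity
  have a1 : ‖u x - u y‖ₑ ≤ ENNReal.ofReal d * (ENNReal.ofReal (4 * d * P * α * ‖x‖ ^ (-P⁻¹)) +
      ∫⁻ t in Ioc (0 : ℝ) 1, exc α u (x + t • (y - x))) := by
    have := ftc (hu.1.of_le (by simp)) x (y - x)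
    rw [add_sub_cancel, enorm_sub_rev] at this
    have e := lintegral_rpow_neg (β := 1 - P⁻¹) (by simp; linarith only [hp, hP])
    rw [sub_sub_cancel, one_div, inv_inv] at e
    rw [show 4 * d * P * α * ‖x‖ ^ (-P⁻¹) = 4 * d * α * ‖x‖ ^ (-P⁻¹) * P by ring,
      ENNReal.ofReal_mul (by positivity), ← e, ← lintegral_const_mul' _ _ ENNReal.ofReal_ne_top,
      ← lintegral_add_right _ hm, ← lintegral_const_mul' _ _ ENNReal.ofReal_ne_top]
    refine this.trans (setLIntegral_mono' measurableSet_Ioc fun t ht => ?_)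
    have := ht.1
    rw [mul_comm, ← ofReal_norm, ← ofReal_norm, exc, ← ENNReal.ofReal_mul (by positivity),
      ← ENNReal.ofReal_mul (by positivity), ← ENNReal.ofReal_add (by positivity) (le_max_right _ _),
      ← ENNReal.ofReal_mul (by positivity)]
    have := le_max_left (‖fderiv ℝ u (x + t • (y - x))‖ - bb α (x + t • (y - x))) 0
    exact ENNReal.ofReal_le_ofReal (mul_le_mul (distQ hyQ hx) (by linarith only [(hz t ht).2, this])
      (norm_nonneg _) (by positivity))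
  refine (ENNReal.rpow_le_rpow a1 hp0.le).trans ?_
  rw [ENNReal.mul_rpow_of_nonneg _ _ hp0.le, mul_comm 2, Real.mul_rpow (by positivity) zero_le_two,
    ENNReal.ofReal_mul (p := _ ^ p) (by positivity), mul_assoc (ENNReal.ofReal _),
    ENNReal.ofReal_rpow_of_nonneg (by positivity) hp0.le]
  refine mul_le_mul_right ((ENNReal.rpow_add_le_mul_rpow_add_rpow _ _ hp.le).trans (mul_le_mul' ?_
    (add_le_add ?_ ?_))) _
  · rw [← ENNReal.ofReal_rpow_of_nonneg zero_le_two hp0.le, ENNReal.ofReal_ofNat]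
    exact ENNReal.rpow_le_rpow_of_exponent_le one_le_two (by linarith only [])
  · rw [ENNReal.ofReal_rpow_of_nonneg (by positivity) hp0.le,
      Real.mul_rpow (by positivity) (by positivity), ENNReal.ofReal_mul (by positivity),
      ← Real.rpow_mul hx0.le]
    refine mul_le_mul_right ?_ _
    have e : P⁻¹ * p ≤ 1 := by rwa [inv_mul_le_one₀ (by linarith only [hp, hP])]
    by_cases h : ‖x‖ < 1
    · rw [indicator_of_mem (show x ∈ Bo d from ⟨mem_ball_zero_iff.2 h, fun i => (hx i).1⟩),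
        ← Real.rpow_neg_one ‖x‖]
      exact (ENNReal.ofReal_le_ofReal (Real.rpow_le_rpow_of_exponent_ge hx0 h.le
        (by linarith only [e]))).trans le_add_self
    · exact (ENNReal.ofReal_le_one.2 (Real.rpow_le_one_of_one_le_of_nonpos (not_lt.1 h)
        (by linarith only [(by positivity : 0 ≤ P⁻¹ * p)]))).trans le_self_add
  · refine (jensen _ hm.aemeasurable hp).trans (le_of_eq ?_)
    rw [setLIntegral_congr_fun measurableSet_Ioc fun t ht => indicator_of_mem (hz t ht).1 _]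
    simp only [MeasurableSet.univ, Measure.restrict_apply, univ_inter, Real.volume_Ioc, sub_zero, ENNReal.ofReal_one, ENNReal.one_rpow, mul_one]

theorem osc (hd : 2 ≤ d) {p P α : ℝ} (h0 : 0 < α) (hp : 1 < p) (hP : p ≤ P) {u : Eu d → ℝ}
    (hu : Cls u) : ∃ c : ℝ, ∫⁻ x in Q d, ‖u x - c‖ₑ ^ p ≤
      ENNReal.ofReal (2 ^ d) * (ENNReal.ofReal ((2 * d) ^ p) * (ENNReal.ofReal ((4 * d * P * α) ^ p) *
        ENNReal.ofReal 3 + ENNReal.ofReal (2 ^ d) * ∫⁻ z in Q d, exc α u z ^ p)) := by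
  set Y : Set (Eu d) := {y | ∀ i, y i ∈ Ioo (1 / 2 : ℝ) 1} with hY
  have hYQ : Y ⊆ Q d := fun y hy i => ⟨by linarith only [(hy i).1], (hy i).2⟩
  have hYm : MeasurableSet Y := (isOpen_box _ _).measurableSet
  have hv : volume Y = ENNReal.ofReal (2 ^ d)⁻¹ := by
    rw [hY, vol_box, ← ENNReal.ofReal_pow (by norm_num), ← inv_pow]; norm_num
  have c0 := hu.1.continuous
  have hG := ((exc_meas α hu).pow_const p).indicator measQ
  obtain ⟨y, hy, h⟩ := exists_le_setLAverage (μ := volume) (s := Y)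
    (f := fun y => ∫⁻ x in Q d, ‖u x - u y‖ₑ ^ p) (by simp [hv]) (by simp [hv])
    (Measurable.lintegral_prod_right' (f := fun w : Eu d × Eu d => ‖u w.2 - u w.1‖ₑ ^ p)
      ((Continuous.measurable (by fun_prop)).pow_const p)).aemeasurable
  refine ⟨u y, h.trans ?_⟩
  rw [setLAverage_eq, hv, ENNReal.ofReal_inv_of_pos (by positivity), div_eq_mul_inv, inv_inv,
    mul_comm]
  refine mul_le_mul_right ((setLIntegral_mono' hYm fun y hy => setLIntegral_mono' measQ
    fun x hx => two_point hd h0 hp hP hu hx hy).trans ((lintegral_mono_set hYQ).trans ?_)) _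
  have hi : Measurable ((Bo d).indicator fun x => ENNReal.ofReal ‖x‖⁻¹) :=
    Measurable.indicator (by fun_prop) measB
  simp_rw [lintegral_const_mul' _ _ ENNReal.ofReal_ne_top,
    lintegral_add_left ((hi.const_add 1).const_mul _), lintegral_add_left measurable_const,
    lintegral_const_mul' _ _ ENNReal.ofReal_ne_top, lintegral_add_left measurable_const,
    setLIntegral_const, volQ, mul_one]
  gcongr
  · exact (add_le_add_right (inv_int hd) _).trans (by norm_num)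
  · simpa only [Nat.ofNat_nonneg, ENNReal.ofReal_pow, ENNReal.ofReal_ofNat, finrank_euclideanSpace, Fintype.card_fin, lintegral_indicator measQ] using seg volume volQ hG

end Pool.Agent.MP_9e511b_an.H18

end

section

open MeasureTheory Metric Set Module Filter Topology
open scoped ENNReal ContDiff

namespace Pool.Agent.MP_9e511b_an.H18

theorem closing {A B p α σ : ℝ} (hA : 0 ≤ A) (hB : 0 ≤ B) (hp : 2 ≤ p) (h0 : 0 < α) (hσ : 0 ≤ σ)
    (h : σ ^ p ≤ α ^ (p - 1) * (A * α + B * σ)) : σ ≤ (A + B + 1) * α := by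
  obtain ⟨t, rfl⟩ : ∃ t, σ = t * α := ⟨σ / α, by field_simp⟩
  have ht : 0 ≤ t := nonneg_of_mul_nonneg_left hσ h0
  refine mul_le_mul_of_nonneg_right ?_ h0.le
  rcases le_total t 1 with h1 | h1
  · linarith
  rw [Real.mul_rpow ht h0.le, Real.rpow_sub_one h0.ne',
    show α ^ p / α * (A * α + B * (t * α)) = (A + B * t) * α ^ p by field_simp] at h
  have h2 := (Real.rpow_le_rpow_of_exponent_le h1 hp).trans
    (le_of_mul_le_mul_right h (by positivity))
  rw [Real.rpow_two] at h2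
  nlinarith only [hA, hB, h2]

variable {d : ℕ}

/-- Facts on a normalised function at distance `σ` from the constant `c`. -/
theorem near_const {p C c σ : ℝ} (hp : 2 < p) (hσ : 0 ≤ σ) (hC : 0 ≤ C) {u : Eu d → ℝ}
    (hu : Continuous u) (h1 : ∫⁻ x in Q d, ‖u x‖ₑ ^ p = 1)
    (hS : ∫⁻ x in Q d, ‖u x - c‖ₑ ^ p ≤ ENNReal.ofReal σ ^ p) :
    1 ≤ |c| + σ ∧ |c| ≤ 1 + σ ∧ ∫⁻ x in Q d, ‖u x‖ₑ ≤ 1 ∧
      ENNReal.ofReal |c| * volume (Bo d) ≤ (∫⁻ x in Bo d, ‖u x‖ₑ) + ENNReal.ofReal σ ∧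
      ((∀ t, 0 ≤ t → t ^ p + p * |c| ^ p ≤
        |c| ^ p + p * (|c| ^ (p - 1) * t) + C * (|t - abs c| ^ 2 + |t - abs c| ^ p)) →
      1 + p * |c| ^ p ≤ |c| ^ p + p * (|c| ^ (p - 1) * (∫⁻ x in Q d, ‖u x‖ₑ).toReal) +
        C * (σ ^ 2 + σ ^ p)) := by
  have hp0 : 0 < p := by linarith
  have hν : (volume.restrict (Q d)) univ = 1 := by simp only [MeasurableSet.univ, Measure.restrict_apply, univ_inter, volQ]
  have m0 := hu.enorm.measurable
  have m1 : Measurable fun x => ‖u x - c‖ₑ := Continuous.measurable (by fun_prop)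
  have l1 := lyap hν m1 one_pos (by linarith only [hp]) hS
  have l2 := lyap hν m1 two_pos hp hS
  have l0 := lyap hν m0 one_pos (p := p) (σ := 1) (by linarith) (by simp [h1])
  simp only [ENNReal.rpow_one] at l1 l0
  have tri : ∀ s ⊆ Q d, ENNReal.ofReal |c| * volume s ≤ (∫⁻ x in s, ‖u x‖ₑ) + ENNReal.ofReal σ := by
    intro s hs
    rw [← setLIntegral_const]
    refine le_trans ?_ (add_le_add_right ((lintegral_mono_set hs).trans l1) _)
    rw [← lintegral_add_left m0, ← Real.enorm_eq_ofReal_abs]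
    exact lintegral_mono fun x => by simpa only [sub_sub_cancel] using enorm_sub_le (a := u x) (b := u x - c)
  refine ⟨?_, ?_, l0, tri _ Bo_sub, fun h => ?_⟩
  · have := ENNReal.lintegral_Lp_add_le (μ := volume.restrict (Q d)) (p := p) m1.aemeasurable
      (g := fun _ => ‖c‖ₑ) aemeasurable_const (by linarith only [hp])
    rw [lintegral_const, hν, mul_one, one_div, ENNReal.rpow_rpow_inv hp0.ne'] at this
    have h2 := ENNReal.rpow_le_rpow hS (by positivity : 0 ≤ p⁻¹)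
    rw [ENNReal.rpow_rpow_inv hp0.ne'] at h2
    rw [← ENNReal.one_le_ofReal, add_comm, ENNReal.ofReal_add hσ (abs_nonneg _),
      ← Real.enorm_eq_ofReal_abs, ← ENNReal.one_rpow p⁻¹, ← h1]
    refine le_trans (ENNReal.rpow_le_rpow (lintegral_mono fun x => ENNReal.rpow_le_rpow ?_ hp0.le)
      (by positivity)) (this.trans (add_le_add_left h2 _))
    simpa only [Pi.add_apply, sub_add_cancel] using enorm_add_le (u x - c) c
  · have := (tri _ subset_rfl).trans (add_le_add_left l0 _)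
    rwa [volQ, mul_one, ← ENNReal.ofReal_one, ← ENNReal.ofReal_add zero_le_one hσ,
      ENNReal.ofReal_le_ofReal_iff (by positivity)] at this
  have key : (∫⁻ x in Q d, ‖u x‖ₑ ^ p) + ENNReal.ofReal (p * |c| ^ p) ≤ ENNReal.ofReal (|c| ^ p) +
      ENNReal.ofReal (p * |c| ^ (p - 1)) * (∫⁻ x in Q d, ‖u x‖ₑ) + ENNReal.ofReal C *
        ((∫⁻ x in Q d, ‖u x - c‖ₑ ^ (2 : ℝ)) + ∫⁻ x in Q d, ‖u x - c‖ₑ ^ p) := by
    have e : ∀ a : ℝ≥0∞, a = ∫⁻ _ in Q d, a := fun a => by simp only [lintegral_const, MeasurableSet.univ, Measure.restrict_apply, univ_inter, volQ, mul_one]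
    rw [e (ENNReal.ofReal (p * |c| ^ p)), e (ENNReal.ofReal (|c| ^ p)),
      ← lintegral_add_left (m1.pow_const _), ← lintegral_const_mul' _ _ ENNReal.ofReal_ne_top,
      ← lintegral_const_mul' _ _ ENNReal.ofReal_ne_top, ← lintegral_add_left measurable_const,
      ← lintegral_add_right _ measurable_const,
      ← lintegral_add_left ((m0.const_mul _).const_add _)]
    refine lintegral_mono fun x => ?_
    have h2 := abs_abs_sub_abs_le_abs_sub (u x) c
    rw [en_pow _ hp0.le, en_pow _ hp0.le, en_pow _ zero_le_two, Real.enorm_eq_ofReal_abs,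
      ← ENNReal.ofReal_add (by positivity) (by positivity), ← ENNReal.ofReal_add (by positivity)
      (by positivity), ← ENNReal.ofReal_mul (by positivity), ← ENNReal.ofReal_mul hC,
      ← ENNReal.ofReal_add (by positivity) (by positivity), ← ENNReal.ofReal_add (by positivity)
      (by positivity), Real.norm_eq_abs, Real.norm_eq_abs, Real.rpow_two, mul_assoc]
    exact ENNReal.ofReal_le_ofReal ((h _ (abs_nonneg _)).trans (by gcongr))
  have := ne_top_of_le_ne_top ENNReal.one_ne_top l0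
  replace key := key.trans (add_le_add_right (mul_le_mul_right (add_le_add l2 hS) _) _)
  rw [h1, ENNReal.ofReal_rpow_of_nonneg hσ hp0.le, ENNReal.ofReal_rpow_of_nonneg hσ zero_le_two,
    Real.rpow_two] at key
  replace key := ENNReal.toReal_mono (by finiteness) key
  simpa (disch := first | positivity | finiteness) only [ENNReal.toReal_add, ENNReal.toReal_mul,
    ENNReal.toReal_ofReal, ENNReal.toReal_one, mul_assoc] using key

theorem conv4 {D E b v S : ℝ≥0∞} {g p a σ k₁ k₂ k₃ e : ℝ} (hv : v ≤ 1) (hb : b ≤ 1) (hg : 0 ≤ g)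
    (hp : 1 < p) (hσ : 0 ≤ σ) (ha : 0 ≤ a) (h₁ : 0 ≤ k₁) (h₂ : 0 ≤ k₂) (h₃ : 0 ≤ k₃) (he : 0 ≤ e)
    (h1 : D + ENNReal.ofReal (p * g) * b ≤ E + ENNReal.ofReal (p - 1) * (ENNReal.ofReal g * v))
    (h2 : E ≤ ENNReal.ofReal e * v) (h3 : ENNReal.ofReal a * v ≤ b + ENNReal.ofReal σ)
    (h4 : S ≤ ENNReal.ofReal k₁ * (ENNReal.ofReal k₂ * (ENNReal.ofReal k₃ * ENNReal.ofReal 3 +
      ENNReal.ofReal k₁ * D))) : E ≠ ⊤ ∧ ∃ D' b' : ℝ, 0 ≤ D' ∧
      D' + p * g * b' ≤ E.toReal + (p - 1) * (g * v.toReal) ∧ E.toReal ≤ e * v.toReal ∧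
      a * v.toReal ≤ b' + σ ∧ S.toReal ≤ k₁ * (k₂ * (k₃ * 3 + k₁ * D')) := by
  have hv' := ne_top_of_le_ne_top ENNReal.one_ne_top hv
  have hb' := ne_top_of_le_ne_top ENNReal.one_ne_top hb
  have hE : E ≠ ⊤ := ne_top_of_le_ne_top (by finiteness) h2
  have hD : D ≠ ⊤ := ne_top_of_le_ne_top (by finiteness) (le_self_add.trans h1)
  have hp0 : 0 < p := by linarith
  have hp1 : 0 < p - 1 := by linarith only [hp]
  replace h1 := ENNReal.toReal_mono (by finiteness) h1
  replace h2 := ENNReal.toReal_mono (by finiteness) h2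
  replace h3 := ENNReal.toReal_mono (by finiteness) h3
  replace h4 := ENNReal.toReal_mono (by finiteness) h4
  simp (disch := first | positivity | finiteness) only [ENNReal.toReal_add, ENNReal.toReal_mul,
    ENNReal.toReal_ofReal] at h1 h2 h3 h4
  exact ⟨hE, _, _, ENNReal.toReal_nonneg, h1, h2, h3, h4⟩

/-- A priori estimate for almost minimisers of the cell problem. -/
theorem prior (hd : 2 ≤ d) {P C₀ : ℝ} (hP : 2 ≤ P) (hC₀ : 0 ≤ C₀) : ∃ α₀ C : ℝ, 0 < α₀ ∧ 0 ≤ C ∧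
    ∀ p α : ℝ, 2 < p → p ≤ P → 0 < α → α ≤ 1 → α ≤ α₀ → α * (p - 1) = p - d → ∀ u : Eu d → ℝ,
    Cls u → ∫⁻ x in Q d, ‖u x‖ₑ ^ p = 1 → ∫⁻ x in Q d, ‖fderiv ℝ u x‖ₑ ^ p ≤
      ENNReal.ofReal (d * α ^ (p - 1) * (1 + C₀ * α)) * volume (Bo d) →
    ENNReal.ofReal (d * α ^ (p - 1) / 2) * volume (Bo d) ≤ ∫⁻ x in Q d, ‖fderiv ℝ u x‖ₑ ^ p ∧
      ENNReal.ofReal (1 - C * α ^ 2) ≤ (∫⁻ x in Q d, ‖u x‖ₑ) ^ p := by
  have hd2 : (2 : ℝ) ≤ d := by exact_mod_cast hd
  obtain ⟨C, hC, tay⟩ := taylor P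
  have hvt := ne_top_of_le_ne_top ENNReal.one_ne_top (volB (d := d)).2
  have hv0 := ENNReal.toReal_pos (volB (d := d)).1 hvt
  have hv1 : (volume (Bo d)).toReal ≤ 1 := ENNReal.toReal_le_of_le_ofReal zero_le_one
    (by simpa using volB.2)
  obtain ⟨A, hA⟩ : ∃ A : ℝ, A = 2 ^ d * (2 * d) ^ P := ⟨_, rfl⟩
  have hA0 : 0 ≤ A := by rw [hA]; positivity
  obtain ⟨T, hT⟩ : ∃ T : ℝ, T = A * ((4 * d * P) ^ P * 3 + 2 ^ d * (d * C₀)) +
    A * (2 ^ d * (d * (2 * P))) + 1 := ⟨_, rfl⟩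
  have hT0 : 0 < T := by rw [hT]; positivity
  refine ⟨(volume (Bo d)).toReal / (4 * P * T), 2 * C * T ^ 2, by positivity, by positivity,
    fun p α hp hpP h0 h1 h2 hα u hu hN hE => ?_⟩
  have hp0 : 0 < p := by linarith only [hp]
  obtain ⟨c, hc⟩ := osc hd h0 (by linarith only [hp]) hpP hu
  have hSt : ∫⁻ x in Q d, ‖u x - c‖ₑ ^ p ≠ ⊤ := ne_top_of_le_ne_top (by
    have := ne_top_of_le_ne_top (by finiteness) hE
    have := ne_top_of_le_ne_top (by finiteness) (le_self_add.trans (deficit hd h0 h1 hp.le hα hu))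
    finiteness) hc
  obtain ⟨σ, hσ, hS⟩ : ∃ σ : ℝ, 0 ≤ σ ∧ σ ^ p = (∫⁻ x in Q d, ‖u x - c‖ₑ ^ p).toReal :=
    ⟨_, Real.rpow_nonneg ENNReal.toReal_nonneg _, Real.rpow_inv_rpow ENNReal.toReal_nonneg hp0.ne'⟩
  obtain ⟨a1, a2, a3, a4, a5⟩ := near_const (c := c) hp hσ hC hu.1.continuous hN (by
    rw [ENNReal.ofReal_rpow_of_nonneg hσ hp0.le, hS, ENNReal.ofReal_toReal hSt])
  obtain ⟨hEt, D, b, hD, b1, b2, b3, b4⟩ := conv4 volB.2 ((lintegral_mono_set Bo_sub).trans a3)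
    (by positivity) (by linarith only [hp]) hσ (abs_nonneg c) (by positivity) (by positivity) (by positivity)
    (by positivity) (deficit hd h0 h1 hp.le hα hu) hE a4 hc
  set v := (volume (Bo d)).toReal
  have hg : 0 < d * α ^ (p - 1) := by positivity
  have c1 : v - b ≤ 2 * σ := by
    linarith only [mul_le_mul_of_nonneg_right a1 hv0.le, mul_le_of_le_one_right hσ hv1, b3]
  have c2 : p * (v - b) ≤ P * (2 * σ) :=
    (mul_le_mul_of_nonneg_left c1 hp0.le).trans (mul_le_mul_of_nonneg_right hpP (by positivity))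
  have c3 := mul_le_mul_of_nonneg_left c2 hg.le
  have c4 : D ≤ d * α ^ (p - 1) * (C₀ * α + 2 * P * σ) := by
    linarith only [mul_le_of_le_one_right (by positivity : 0 ≤ d * α ^ (p - 1) * (C₀ * α)) hv1, b1, b2, c3]
  have c5 : σ ≤ T * α := hT ▸ closing (by positivity) (by positivity) hp.le h0 hσ (by
    have e1 : (2 * d : ℝ) ^ p ≤ (2 * d) ^ P := Real.rpow_le_rpow_of_exponent_le (by linarith only [hd2]) hpP
    have e2 : (4 * d * P : ℝ) ^ p ≤ (4 * d * P) ^ P :=
      Real.rpow_le_rpow_of_exponent_le (one_le_mul_of_one_le_of_one_le (by linarith only [hd2]) (by linarith only [hp, hpP])) hpP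
    rw [hS, hA]
    rw [Real.mul_rpow (by positivity) h0.le] at b4
    refine b4.trans (le_trans (b := 2 ^ d * ((2 * d) ^ P * ((4 * d * P) ^ P * α ^ p * 3 +
      2 ^ d * (d * α ^ (p - 1) * (C₀ * α + 2 * P * σ))))) (by gcongr) (le_of_eq ?_))
    rw [Real.rpow_sub_one h0.ne']
    field_simp
    ring)
  have c6 : 4 * P * σ ≤ v := by
    rw [le_div_iff₀ (by positivity)] at h2
    linarith only [mul_le_mul_of_nonneg_left c5 (by positivity : 0 ≤ 4 * P), h2]
  have c7 : σ ≤ 1 / 2 := by linarith only [mul_le_mul_of_nonneg_right hP hσ, hv1, c6]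
  refine ⟨?_, ?_⟩
  · rw [← ENNReal.ofReal_toReal hEt, ← ENNReal.ofReal_toReal hvt,
      ← ENNReal.ofReal_mul (by positivity)]
    exact ENNReal.ofReal_le_ofReal (by linarith only [mul_le_mul_of_nonneg_left c6 hg.le, hD, b1, c3])
  have hm := ne_top_of_le_ne_top ENNReal.one_ne_top a3
  have d1 := a5 fun t ht => tay p (by linarith only [hp]) hpP t _ ht (by linarith only [a1, c7]) (by linarith only [a2, c7])
  have d2 := strong (ENNReal.toReal_nonneg (a := ∫⁻ x in Q d, ‖u x‖ₑ)) (abs_nonneg c) hp.le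
  have d3 : σ ^ p ≤ σ ^ 2 := by
    rw [← Real.rpow_two]
    exact Real.rpow_le_rpow_of_exponent_ge' hσ (by linarith only [c7]) zero_le_two hp.le
  have d4 : σ ^ 2 ≤ (T * α) ^ 2 := by gcongr
  rw [← ENNReal.ofReal_toReal hm, ENNReal.ofReal_rpow_of_nonneg ENNReal.toReal_nonneg hp0.le]
  refine ENNReal.ofReal_le_ofReal ?_
  linarith only [mul_le_mul_of_nonneg_left (add_le_add d4 (d3.trans d4)) hC, Real.rpow_nonneg (le_max_right ((∫⁻ x in Q d, ‖u x‖ₑ).toReal - |c|) 0) p, d1, d2]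

theorem lower (hd : 2 ≤ d) {P : ℝ} (hP : 2 ≤ P) : ∃ C : ℝ, 0 < C ∧ ∀ p α s : ℝ, 2 < p → p ≤ P →
    0 < α → α * (p - 1) = p - d → 0 ≤ s → Good (volume : Measure (Eu d)) p s →
    1 - C * α ^ 2 ≤ s := by
  have hd2 : (2 : ℝ) ≤ d := by exact_mod_cast hd
  obtain ⟨α₀, C, hα₀, hC, pr⟩ := prior hd hP (C₀ := 26 * P) (by positivity)
  obtain ⟨a, ha0, ha1, ha2⟩ : ∃ a : ℝ, 0 < a ∧ a ≤ α₀ ∧ a ≤ 1 / (12 * P) :=
    ⟨min _ _, by positivity, min_le_left _ _, min_le_right _ _⟩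
  refine ⟨C + 1 + a⁻¹ ^ 2, by positivity, fun p α s hp hpP h0 hα hs hg => ?_⟩
  have hp0 : 0 < p := by linarith only [hp]
  have hα2 : 0 < α ^ 2 := by positivity
  rcases le_total a α with h | h
  · have : 1 ≤ (a⁻¹ * α) ^ 2 := one_le_pow₀ ((one_le_inv_mul₀ ha0).2 h)
    linarith only [mul_nonneg hC hα2.le, hs, hα2, this]
  have h1 : 12 * P * α ≤ 1 := by
    have := (le_div_iff₀ (by positivity)).1 (h.trans ha2)
    linarith only [this]
  have h3 := mul_le_mul_of_nonneg_right hP h0.le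
  have h2 : α ≤ 1 / 4 := by linarith only [h0, h1, h3]
  replace pr := pr p α hp hpP h0 (by linarith only [h0, h1, h3]) (h.trans ha1) hα
  set g := d * α ^ (p - 1) with hgd
  have hg0 : 0 < g := by positivity
  set v := volume (Bo d)
  have hvt : v ≠ ⊤ := ne_top_of_le_ne_top ENNReal.one_ne_top volB.2
  -- normalisation
  have nor : ∀ u : Eu d → ℝ, Cls u → ∫⁻ x in Q d, ‖u x‖ₑ ^ p ≠ 0 → ∃ w : Eu d → ℝ, Cls w ∧
      ∫⁻ x in Q d, ‖w x‖ₑ ^ p = 1 ∧ (∫⁻ x in Q d, ‖fderiv ℝ w x‖ₑ ^ p) * ∫⁻ x in Q d, ‖u x‖ₑ ^ p =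
        ∫⁻ x in Q d, ‖fderiv ℝ u x‖ₑ ^ p := by
    intro u hu hN
    obtain ⟨M, hM⟩ := (isCompact_closedBall (0 : Eu d) d).exists_bound_of_continuousOn
      hu.1.continuous.continuousOn
    have hNt : ∫⁻ x in Q d, ‖u x‖ₑ ^ p ≠ ⊤ := ne_top_of_le_ne_top
      (b := ∫⁻ _ in Q d, ENNReal.ofReal (M ^ p)) (by simp only [lintegral_const, MeasurableSet.univ, Measure.restrict_apply, univ_inter, volQ, mul_one, ne_eq, ENNReal.ofReal_ne_top, not_false_eq_true])
      (setLIntegral_mono' measQ fun x hx => by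
        rw [en_pow _ hp0.le]
        exact ENNReal.ofReal_le_ofReal (Real.rpow_le_rpow (norm_nonneg _) (hM x
          (mem_closedBall_zero_iff.2 (norm_le_of fun i =>
            abs_le.2 ⟨by linarith only [(hx i).1, h0, h1, h3], (hx i).2.le⟩))) hp0.le))
    obtain ⟨c, e⟩ : ∃ c : ℝ, ‖c‖ₑ ^ p * ∫⁻ x in Q d, ‖u x‖ₑ ^ p = 1 :=
      ⟨((∫⁻ x in Q d, ‖u x‖ₑ ^ p)⁻¹ ^ p⁻¹).toReal, by
        rw [Real.enorm_toReal (ENNReal.rpow_ne_top_of_nonneg (by positivity) (by simpa)),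
          ENNReal.rpow_inv_rpow hp0.ne', ENNReal.inv_mul_cancel hN hNt]⟩
    have hct : ‖c‖ₑ ^ p ≠ ⊤ := ENNReal.rpow_ne_top_of_nonneg hp0.le enorm_ne_top
    refine ⟨c • u, ⟨hu.1.const_smul c, hu.2.mono fun x hx => by simp [hx]⟩, ?_, ?_⟩
    · rw [← e, ← lintegral_const_mul' _ _ hct]
      simp [ENNReal.mul_rpow_of_nonneg _ _ hp0.le]
    · rw [← one_mul (∫⁻ x in Q d, ‖fderiv ℝ u x‖ₑ ^ p), ← e, mul_right_comm,
        ← lintegral_const_mul' _ _ hct]
      congr 1
      refine lintegral_congr fun x => ?_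
      rw [fderiv_const_smul (hu.1.differentiable (by simp) x), enorm_smul,
        ENNReal.mul_rpow_of_nonneg _ _ hp0.le]
  set m := ⨅ (u : Eu d → ℝ) (_ : Cls u) (_ : ∫⁻ x in Q d, ‖u x‖ₑ ^ p = 1),
    ∫⁻ x in Q d, ‖fderiv ℝ u x‖ₑ ^ p with hm
  have mle : ∀ u, Cls u → ∫⁻ x in Q d, ‖u x‖ₑ ^ p = 1 → m ≤ ∫⁻ x in Q d, ‖fderiv ℝ u x‖ₑ ^ p :=
    fun u h1 h2 => iInf_le_of_le u (iInf_le_of_le h1 (iInf_le _ h2))
  have low : ∀ u, Cls u → m * ∫⁻ x in Q d, ‖u x‖ₑ ^ p ≤ ∫⁻ x in Q d, ‖fderiv ℝ u x‖ₑ ^ p := by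
    intro u hu
    by_cases hN : ∫⁻ x in Q d, ‖u x‖ₑ ^ p = 0
    · simp [hN]
    obtain ⟨w, w1, w2, w3⟩ := nor u hu hN
    exact w3 ▸ mul_le_mul_left (mle w w1 w2) _
  have hPα := mul_le_mul_of_nonneg_right hpP h0.le
  have m1 : m ≤ ENNReal.ofReal (g * (1 + 12 * P * α)) * v := by
    obtain ⟨u, u1, u2, u3⟩ := exists_u0 hd h0 h2 (by linarith only [hp, h0, h1, h3]) hα
    have u4 : 1 ≤ ENNReal.ofReal (1 + 12 * P * α) * ∫⁻ x in Q d, ‖u x‖ₑ ^ p := by
      refine le_trans ?_ (mul_le_mul_right (tsub_le_iff_right.2 u3) _)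
      rw [← ENNReal.ofReal_one, ← ENNReal.ofReal_sub _ (by positivity),
        ← ENNReal.ofReal_mul (by positivity)]
      exact ENNReal.ofReal_le_ofReal (by
        linarith only [mul_le_mul_of_nonneg_left hPα (by positivity : 0 ≤ 1 + 12 * P * α), mul_le_mul_of_nonneg_left h1 (by positivity : 0 ≤ P * α)])
    calc m ≤ m * _ := le_mul_of_one_le_right' u4
      _ ≤ _ := by
        rw [mul_left_comm, mul_comm g, ENNReal.ofReal_mul (by positivity),
          mul_assoc (ENNReal.ofReal _)]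
        exact mul_le_mul_right ((low u u1).trans u2) _
  have m0 : m ≠ 0 := by
    refine ne_of_gt (lt_of_lt_of_le (b := ENNReal.ofReal (g / 2) * v) (ENNReal.mul_pos
      (by simpa only [ne_eq, ENNReal.ofReal_eq_zero, not_le, Nat.ofNat_pos, div_pos_iff_of_pos_right] using hg0) volB.1) (le_iInf fun u => le_iInf fun hu => le_iInf fun hN => ?_))
    rcases le_total _ (ENNReal.ofReal (g * (1 + 26 * P * α)) * v) with h | h
    · exact (pr u hu hN h).1
    · exact le_trans (by gcongr; linarith only [(by positivity : 0 < g * (P * α)), hg0]) h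
  have mt : m ≠ ⊤ := ne_top_of_le_ne_top (by finiteness) m1
  have : m < m * ENNReal.ofReal (1 + α ^ 2) := by
    simpa only [mul_one] using ENNReal.mul_lt_mul_right m0 mt (ENNReal.one_lt_ofReal.2 (lt_add_of_pos_right 1 hα2))
  obtain ⟨u, hu⟩ := iInf_lt_iff.1 this
  obtain ⟨u1, hu⟩ := iInf_lt_iff.1 hu
  obtain ⟨u2, hu⟩ := iInf_lt_iff.1 hu
  have k1 := (pr u u1 u2 (hu.le.trans ((mul_le_mul_left m1 _).trans (by
    rw [mul_right_comm, ← ENNReal.ofReal_mul (by positivity), mul_assoc]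
    gcongr
    linarith only [mul_le_mul_of_nonneg_right h1 hα2.le, mul_le_mul_of_nonneg_right h2 h0.le, h0, h3])))).2
  have k2 := transfer (m := m.toReal) (by linarith only [hp, h0, h1, h3]) hg
    (fun w hw => by rw [ENNReal.ofReal_toReal mt]; exact low w hw) u1
  rw [ENNReal.ofReal_toReal mt] at k2
  have k3 := (mul_le_mul_right k1 m).trans (k2.trans (mul_le_mul_right hu.le _))
  rw [mul_left_comm, ENNReal.mul_le_mul_iff_right m0 mt, ← ENNReal.ofReal_mul hs,
    ENNReal.ofReal_le_ofReal_iff (by positivity)] at k3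
  by_contra hc
  linarith only [mul_lt_mul_of_pos_right (not_le.1 hc) (by positivity : 0 < 1 + α ^ 2), (by positivity : 0 ≤ a⁻¹ ^ 2 * α ^ 2), mul_nonneg (by positivity : 0 ≤ (C + 1 + a⁻¹ ^ 2) * α ^ 2) hα2.le, k3]

end Pool.Agent.MP_9e511b_an.H18

end

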